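import Mathlib

/-!
# Weights and a nilpotent operator: the trace of Frobenius on the kernel
-/

set_option autoImplicit false

open Polynomial

namespace Pool.Agent.Q226.IL

/-- `g` is a nonzero rational polynomial, and all its complex roots have absolute value
`q ^ (j / 2)`. -/
def PureWt (q : ℕ) (j : ℤ) (g : ℚ[X]) : Prop :=
  g ≠ 0 ∧ ∀ z : ℂ, aeval z g = 0 → ‖z‖ ^ 2 = (q : ℝ) ^ j

section pure

variable {q : ℕ}

lemma PureWt.mul {j : ℤ} {g h : ℚ[X]} (hg : PureWt q j g) (hh : PureWt q j h) :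
    PureWt q j (g * h) := by
  refine ⟨mul_ne_zero hg.1 hh.1, fun z hz => ?_⟩
  rw [map_mul, mul_eq_zero] at hz
  rcases hz with hz | hz
  · exact hg.2 z hz
  · exact hh.2 z hz

lemma PureWt.one (j : ℤ) : PureWt q j 1 :=
  ⟨one_ne_zero, fun z hz => by simp at hz⟩

lemma PureWt.pow {j : ℤ} {g : ℚ[X]} (hg : PureWt q j g) (n : ℕ) : PureWt q j (g ^ n) := by
  induction n with
  | zero => rw [pow_zero]; exact .one j
  | succ n ih => rw [pow_succ]; exact ih.mul hg

lemma PureWt.coprime (hq : 2 ≤ q) {i j : ℤ} (hij : i ≠ j) {g h : ℚ[X]} (hg : PureWt q i g)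
    (hh : PureWt q j h) : IsCoprime g h := by
  refine (Polynomial.isCoprime_iff_aeval_ne_zero_of_isAlgClosed ℚ ℂ g h).2 fun z => ?_
  by_contra hc
  push Not at hc
  have h1 := hg.2 z hc.1
  have h2 := hh.2 z hc.2
  rw [h1] at h2
  have hq' : (1 : ℝ) < q := by exact_mod_cast hq
  exact hij (zpow_right_injective₀ (by positivity) hq'.ne' h2)

lemma PureWt.scale (hq : 2 ≤ q) {j : ℤ} {g : ℚ[X]} (hg : PureWt q j g) :
    PureWt q (j - 2) (g.comp (C (q : ℚ) * X)) := by
  have hq0 : (q : ℚ) ≠ 0 := by positivity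
  refine ⟨?_, fun z hz => ?_⟩
  · intro h
    apply hg.1
    have h1 : (g.comp (C (q : ℚ) * X)).comp (C (q : ℚ)⁻¹ * X) = g := by
      rw [comp_assoc]
      have : (C (q : ℚ) * X).comp (C (q : ℚ)⁻¹ * X) = (X : ℚ[X]) := by
        simp only [mul_comp, C_comp, X_comp]
        rw [← mul_assoc, ← C_mul, mul_inv_cancel₀ hq0, C_1, one_mul]
      rw [this, comp_X]
    rw [← h1, h, zero_comp]
  · rw [aeval_comp] at hz
    have h1 := hg.2 _ hz
    have hqR : (q : ℝ) ≠ 0 := by positivity
    simp only [map_mul, aeval_C, aeval_X, norm_mul] at h1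
    have h2 : ‖(algebraMap ℚ ℂ) (q : ℚ)‖ = (q : ℝ) := by simp
    rw [h2, mul_pow] at h1
    rw [zpow_sub₀ hqR, ← h1]
    field_simp

end pure

section ev

variable {K V : Type*} [Field K] [CharZero K] [AddCommGroup V] [Module K V]

/-- The value at an endomorphism `Φ` of a polynomial with rational coefficients. -/
noncomputable def ev (Φ : Module.End K V) : ℚ[X] →+* Module.End K V :=
  (aeval Φ : K[X] →ₐ[K] Module.End K V).toRingHom.comp (mapRingHom (algebraMap ℚ K))

lemma ev_apply (Φ : Module.End K V) (g : ℚ[X]) : ev Φ g = aeval Φ (g.map (algebraMap ℚ K)) := rfl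

@[simp] lemma ev_X (Φ : Module.End K V) : ev Φ X = Φ := by simp [ev_apply]

@[simp] lemma ev_C (Φ : Module.End K V) (a : ℚ) : ev Φ (C a) = (algebraMap ℚ K a) • 1 := by
  rw [ev_apply, map_C, aeval_C, Algebra.algebraMap_eq_smul_one]

lemma ev_comm (Φ : Module.End K V) (g h : ℚ[X]) : ev Φ g * ev Φ h = ev Φ h * ev Φ g := by
  rw [← map_mul, mul_comm, map_mul]

/-- an operator which commutes with `Φ` -/
lemma ev_commute {Φ A : Module.End K V} (h : Φ * A = A * Φ) (g : ℚ[X]) :
    ev Φ g * A = A * ev Φ g := by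
  induction g using Polynomial.induction_on' with
  | add p q hp hq => rw [map_add, add_mul, mul_add, hp, hq]
  | monomial n a =>
    have h1 : Φ ^ n * A = A * Φ ^ n := (Commute.pow_left (show Commute Φ A from h) n).eq
    rw [← C_mul_X_pow_eq_monomial, map_mul, map_pow, ev_X, ev_C, smul_mul_assoc, one_mul,
      smul_mul_assoc, mul_smul_comm, h1]

/-- the relation `N Φ = q Φ N` for polynomials -/
lemma ev_N {q : ℕ} {Φ N : Module.End K V} (h : N * Φ = (q : K) • (Φ * N)) (g : ℚ[X]) :
    N * ev Φ g = ev Φ (g.comp (C (q : ℚ) * X)) * N := by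
  have key : ∀ n : ℕ, N * Φ ^ n = ((q : K) ^ n) • (Φ ^ n * N) := by
    intro n
    induction n with
    | zero => simp
    | succ n ih =>
      rw [pow_succ, ← mul_assoc, ih, smul_mul_assoc, mul_assoc, h, mul_smul_comm, smul_smul,
        ← mul_assoc, ← pow_succ, ← pow_succ]
  induction g using Polynomial.induction_on' with
  | add p q hp hq => rw [map_add, mul_add, hp, hq, add_comp, map_add, add_mul]
  | monomial n a =>
    have h2 : ev Φ (C (q : ℚ) * X) = (q : K) • Φ := by
      rw [map_mul, ev_X, ev_C, smul_mul_assoc, one_mul, map_natCast]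
    rw [← C_mul_X_pow_eq_monomial, mul_comp, C_comp, pow_comp, X_comp, map_mul, map_mul, map_pow,
      map_pow, h2, ev_X, ev_C, smul_mul_assoc, one_mul, smul_mul_assoc, one_mul,
      mul_smul_comm, key, _root_.smul_pow, smul_mul_assoc, smul_mul_assoc]

/-- The part of `V` of weight `j` (with respect to `q`): the vectors which are killed by `g(Φ)` for a
nonzero rational polynomial `g` whose complex roots have absolute value `q ^ (j / 2)`. -/
def wt (q : ℕ) (Φ : Module.End K V) (j : ℤ) : Submodule K V where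
  carrier := {v | ∃ g, PureWt q j g ∧ ev Φ g v = 0}
  zero_mem' := ⟨1, .one j, map_zero _⟩
  add_mem' := by
    rintro v u ⟨g, hg, h1⟩ ⟨h, hh, h2⟩
    refine ⟨g * h, hg.mul hh, ?_⟩
    have e1 : ev Φ (g * h) v = 0 := by rw [mul_comm, map_mul, Module.End.mul_apply, h1, map_zero]
    have e2 : ev Φ (g * h) u = 0 := by rw [map_mul, Module.End.mul_apply, h2, map_zero]
    rw [map_add, e1, e2, add_zero]
  smul_mem' := by
    rintro c v ⟨g, hg, h1⟩
    exact ⟨g, hg, by rw [map_smul, h1, smul_zero]⟩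

/-- The eigenvalues of `Φ` are Weil numbers: `Φ` is killed by a product of rational polynomials `g_j`,
the complex roots of `g_j` having absolute value `q ^ (j / 2)`. -/
def Mixed (q : ℕ) (Φ : Module.End K V) : Prop :=
  ∃ (S : Finset ℤ) (g : ℤ → ℚ[X]), (∀ j, PureWt q j (g j)) ∧ ev Φ (∏ j ∈ S, g j) = 0

/-- Purity of weight `w` (the monodromy filtration of `N` is the weight filtration of `Φ`): `N ^ k` is
a bijection of the part of weight `w + k` onto the part of weight `w - k`, for all `k ≥ 0`. -/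
def MonodromyWeight (q : ℕ) (w : ℤ) (Φ N : Module.End K V) : Prop :=
  ∀ k : ℕ, Set.BijOn (N ^ k) (wt q Φ (w + k)) (wt q Φ (w - k))

end ev

section proj

variable {K V : Type} [Field K] [CharZero K] [AddCommGroup V] [Module K V] {q : ℕ}

lemma coprime_prod (hq : 2 ≤ q) {g : ℤ → ℚ[X]} (hg : ∀ j, PureWt q j (g j)) {S : Finset ℤ}
    {j : ℤ} {h : ℚ[X]} (hh : PureWt q j h) (hS : j ∉ S) : IsCoprime h (∏ i ∈ S, g i) :=
  IsCoprime.prod_right fun i hi => hh.coprime hq (fun e : j = i => hS (e ▸ hi)) (hg i)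

/-- a vector killed by two coprime polynomials -/
lemma eq_zero_of_coprime {Φ : Module.End K V} {g h : ℚ[X]} (hc : IsCoprime g h) {v : V}
    (h1 : ev Φ g v = 0) (h2 : ev Φ h v = 0) : v = 0 := by
  obtain ⟨a, b, hab⟩ := hc
  have : ev Φ (a * g + b * h) v = 0 := by
    rw [map_add, map_mul, map_mul, LinearMap.add_apply, Module.End.mul_apply,
      Module.End.mul_apply, h1, h2, map_zero, map_zero, add_zero]
  rwa [hab, map_one, Module.End.one_apply] at this

lemma mem_iSup (hq : 2 ≤ q) {g : ℤ → ℚ[X]} (hg : ∀ j, PureWt q j (g j)) (S : Finset ℤ)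
    {Φ : Module.End K V} (v : V) (h : ev Φ (∏ j ∈ S, g j) v = 0) : v ∈ ⨆ j, wt q Φ j := by
  induction S using Finset.induction_on generalizing v with
  | empty =>
    rw [Finset.prod_empty, map_one, Module.End.one_apply] at h
    rw [h]
    exact Submodule.zero_mem _
  | insert i S hi ih =>
    rw [Finset.prod_insert hi] at h
    obtain ⟨a, b, hab⟩ := coprime_prod hq hg (hg i) hi
    have h1 : v = ev Φ (a * g i) v + ev Φ (b * ∏ j ∈ S, g j) v := by
      rw [← LinearMap.add_apply, ← map_add, hab, map_one, Module.End.one_apply]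
    rw [h1]
    refine Submodule.add_mem _ (ih _ ?_) ?_
    · rw [← Module.End.mul_apply, ← map_mul,
        show (∏ j ∈ S, g j) * (a * g i) = a * (g i * ∏ j ∈ S, g j) by ring, map_mul,
        Module.End.mul_apply, h, map_zero]
    · refine Submodule.mem_iSup_of_mem i ⟨g i, hg i, ?_⟩
      rw [← Module.End.mul_apply, ← map_mul,
        show g i * (b * ∏ j ∈ S, g j) = b * (g i * ∏ j ∈ S, g j) by ring, map_mul,
        Module.End.mul_apply, h, map_zero]

/-- `Φ` is killed by the product of the `g j`, `j ∈ S`, and `g j` is pure of weight `j` -/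
structure Killed (q : ℕ) (S : Finset ℤ) (g : ℤ → ℚ[X]) (Φ : Module.End K V) : Prop where
  pure : ∀ j, PureWt q j (g j)
  kill : ev Φ (∏ j ∈ S, g j) = 0

variable {S : Finset ℤ} {g : ℤ → ℚ[X]} {Φ : Module.End K V}

lemma Killed.iSup (hq : 2 ≤ q) (h : Killed q S g Φ) : ⨆ j, wt q Φ j = ⊤ := by
  rw [eq_top_iff]
  intro v _
  exact mem_iSup hq h.pure S v (by rw [h.kill, LinearMap.zero_apply])

lemma Killed.induction (hq : 2 ≤ q) (h : Killed q S g Φ) {p : V → Prop} (v : V)
    (h1 : ∀ j, ∀ v ∈ wt q Φ j, p v) (h0 : p 0) (ha : ∀ u v, p u → p v → p (u + v)) : p v := by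
  have hv : v ∈ ⨆ j, wt q Φ j := by rw [h.iSup hq]; trivial
  exact Submodule.iSup_induction _ (motive := p) hv h1 h0 ha

lemma Killed.ext (hq : 2 ≤ q) (h : Killed q S g Φ) {A B : Module.End K V}
    (h1 : ∀ j, ∀ v ∈ wt q Φ j, A v = B v) : A = B := by
  ext v
  exact h.induction hq v h1 (by simp) (fun u v hu hv => by rw [map_add, map_add, hu, hv])

lemma Killed.eq_zero (hq : 2 ≤ q) (h : Killed q S g Φ) {j : ℤ} (hj : j ∉ S) {v : V}
    (hv : v ∈ wt q Φ j) : v = 0 := by
  obtain ⟨f, hf, h1⟩ := hv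
  exact eq_zero_of_coprime (coprime_prod hq h.pure hf hj) h1 (by rw [h.kill, LinearMap.zero_apply])

/-- `P(Φ)` is the projection onto the sum of the parts of weight at most `w` -/
structure IsProjTo (q : ℕ) (Φ : Module.End K V) (w : ℤ) (P : ℚ[X]) : Prop where
  le : ∀ j ≤ w, ∀ v ∈ wt q Φ j, ev Φ P v = v
  gt : ∀ j, w < j → ∀ v ∈ wt q Φ j, ev Φ P v = 0

/-- the same polynomial for all `Φ` which are killed by the product -/
lemma exists_proj (hq : 2 ≤ q) (S : Finset ℤ) (g : ℤ → ℚ[X]) (hg : ∀ j, PureWt q j (g j))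
    (w : ℤ) : ∃ P : ℚ[X], ∀ (K V : Type) [Field K] [CharZero K] [AddCommGroup V] [Module K V]
      (Φ : Module.End K V), Killed q S g Φ → IsProjTo q Φ w P := by
  classical
  set A := ∏ j ∈ S with j ≤ w, g j with hA
  set B := ∏ j ∈ S with ¬ j ≤ w, g j with hB
  have hAB : A * B = ∏ j ∈ S, g j := Finset.prod_filter_mul_prod_filter_not _ _ _
  have hc : IsCoprime A B := by
    refine IsCoprime.prod_left fun i hi => ?_
    refine coprime_prod hq hg (hg i) ?_
    rw [Finset.mem_filter] at hi ⊢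
    exact fun h => h.2 hi.2
  obtain ⟨a, b, hab⟩ := hc
  refine ⟨b * B, fun K V _ _ _ _ Φ hΦ => ⟨?_, ?_⟩⟩
  · rintro j hj v ⟨f, hf, h1⟩
    have h2 : ev Φ A v = 0 := by
      refine eq_zero_of_coprime (Φ := Φ) (g := f) (h := B) (coprime_prod hq hg hf ?_) ?_ ?_
      · rw [Finset.mem_filter]
        exact fun h => h.2 hj
      · rw [← Module.End.mul_apply, ev_comm, Module.End.mul_apply, h1, map_zero]
      · rw [← Module.End.mul_apply, ← map_mul, mul_comm, hAB, hΦ.kill, LinearMap.zero_apply]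
    have h3 : v = ev Φ (a * A) v + ev Φ (b * B) v := by
      rw [← LinearMap.add_apply, ← map_add, hab, map_one, Module.End.one_apply]
    rw [map_mul, Module.End.mul_apply, h2, map_zero, zero_add] at h3
    exact h3.symm
  · rintro j hj v ⟨f, hf, h1⟩
    have h2 : ev Φ B v = 0 := by
      refine eq_zero_of_coprime (Φ := Φ) (g := f) (h := A) (coprime_prod hq hg hf ?_) ?_ ?_
      · rw [Finset.mem_filter]
        exact fun h => absurd h.2 (by omega)
      · rw [← Module.End.mul_apply, ev_comm, Module.End.mul_apply, h1, map_zero]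
      · rw [← Module.End.mul_apply, ← map_mul, hAB, hΦ.kill, LinearMap.zero_apply]
    rw [map_mul, Module.End.mul_apply, h2, map_zero]

end proj

section main

set_option linter.unusedSectionVars false

variable {K V : Type} [Field K] [CharZero K] [AddCommGroup V] [Module K V] {q : ℕ}
  {S : Finset ℤ} {g : ℤ → ℚ[X]} {Φ N : Module.End K V} {w : ℤ}

lemma N_wt (hq : 2 ≤ q) (hN : N * Φ = (q : K) • (Φ * N)) {j : ℤ} {v : V} (hv : v ∈ wt q Φ j) :
    N v ∈ wt q Φ (j - 2) := by
  obtain ⟨f, hf, h⟩ := hv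
  refine ⟨_, hf.scale hq, ?_⟩
  rw [← Module.End.mul_apply, ← ev_N hN, Module.End.mul_apply, h, map_zero]

lemma proj_N (hq : 2 ≤ q) (hK : Killed q S g Φ) (hN : N * Φ = (q : K) • (Φ * N)) {P P' : ℚ[X]}
    (hP : IsProjTo q Φ w P) (hP' : IsProjTo q Φ (w - 2) P') : ev Φ P' * N = N * ev Φ P := by
  refine hK.ext hq fun j v hv => ?_
  rw [Module.End.mul_apply, Module.End.mul_apply]
  by_cases hj : j ≤ w
  · rw [hP.le j hj v hv, hP'.le (j - 2) (by omega) _ (N_wt hq hN hv)]
  · rw [hP.gt j (by omega) v hv, hP'.gt (j - 2) (by omega) _ (N_wt hq hN hv), map_zero]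

lemma ker_N (hq : 2 ≤ q) (hK : Killed q S g Φ) (hN : N * Φ = (q : K) • (Φ * N))
    (hM : MonodromyWeight q w Φ N) {P : ℚ[X]} (hP : IsProjTo q Φ w P) {v : V} (hv : N v = 0) :
    ev Φ P v = v := by
  choose Q hQ' using fun M : ℤ => exists_proj hq S g hK.pure M
  have hQ : ∀ M, IsProjTo q Φ M (Q M) := fun M => hQ' M K V Φ hK
  have h0 : ev Φ P = ev Φ (Q w) := by
    refine hK.ext hq fun j v hv => ?_
    by_cases hj : j ≤ w
    · rw [hP.le j hj v hv, (hQ w).le j hj v hv]
    · rw [hP.gt j (by omega) v hv, (hQ w).gt j (by omega) v hv]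
  have step : ∀ n : ℕ, ev Φ (Q (w + n)) v = ev Φ (Q w) v := by
    intro n
    induction n with
    | zero => simp
    | succ n ih =>
      rw [← ih]
      set M : ℤ := w + n with hMdef
      have hM1 : (w + ((n + 1 : ℕ) : ℤ)) = M + 1 := by push_cast; omega
      rw [hM1]
      have hD : ∀ u, (ev Φ (Q (M + 1)) - ev Φ (Q M)) u ∈ wt q Φ (M + 1) := by
        intro u
        refine hK.induction hq (p := fun u => (ev Φ (Q (M + 1)) - ev Φ (Q M)) u ∈ wt q Φ (M + 1)) u
          (fun j u hu => ?_) (by rw [map_zero]; exact Submodule.zero_mem _) (fun a b ha hb => ?_)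
        · rw [LinearMap.sub_apply]
          rcases lt_trichotomy j (M + 1) with h | h | h
          · rw [(hQ (M + 1)).le j h.le u hu, (hQ M).le j (by omega) u hu, sub_self]
            exact Submodule.zero_mem _
          · subst h
            rw [(hQ (M + 1)).le _ le_rfl u hu, (hQ M).gt _ (by omega) u hu, sub_zero]
            exact hu
          · rw [(hQ (M + 1)).gt j h u hu, (hQ M).gt j (by omega) u hu, sub_self]
            exact Submodule.zero_mem _
        · rw [map_add]
          exact Submodule.add_mem _ ha hb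
      have hND : N ((ev Φ (Q (M + 1)) - ev Φ (Q M)) v) = 0 := by
        rw [LinearMap.sub_apply, map_sub, ← Module.End.mul_apply, ← Module.End.mul_apply,
          ← proj_N hq hK hN (hQ (M + 1)) (hQ (M + 1 - 2)), ← proj_N hq hK hN (hQ M) (hQ (M - 2)),
          Module.End.mul_apply, Module.End.mul_apply, hv, map_zero, map_zero, sub_zero]
      have hk := hM (n + 1)
      have e1 : w + ((n + 1 : ℕ) : ℤ) = M + 1 := hM1
      rw [e1] at hk
      have h1 : (ev Φ (Q (M + 1)) - ev Φ (Q M)) v = 0 := by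
        refine hk.injOn (hD v) (Submodule.zero_mem _) ?_
        rw [pow_succ, Module.End.mul_apply, hND, map_zero, map_zero]
      rw [LinearMap.sub_apply, sub_eq_zero] at h1
      exact h1
  obtain ⟨n, hn⟩ : ∃ n : ℕ, ∀ j ∈ S, j ≤ w + n := by
    refine ⟨(∑ j ∈ S, (j - w).natAbs), fun j hj => ?_⟩
    have h1 : (j - w).natAbs ≤ ∑ j ∈ S, (j - w).natAbs :=
      Finset.single_le_sum (f := fun j => (j - w).natAbs) (fun _ _ => Nat.zero_le _) hj
    omega
  have h1 : ev Φ (Q (w + n)) = 1 := by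
    refine hK.ext hq fun j u hu => ?_
    by_cases hj : j ≤ w + n
    · rw [(hQ _).le j hj u hu, Module.End.one_apply]
    · have : u = 0 := hK.eq_zero hq (fun h => hj (hn j h)) hu
      rw [this, map_zero, map_zero]
  rw [h0, ← step n, h1, Module.End.one_apply]

lemma range_le (hq : 2 ≤ q) (hK : Killed q S g Φ)
    (hM : MonodromyWeight q w Φ N) {P : ℚ[X]} (hP : IsProjTo q Φ (w - 2) P) (v : V) :
    ev Φ P v ∈ LinearMap.range N := by
  refine hK.induction hq (p := fun v => ev Φ P v ∈ LinearMap.range N) v (fun j u hu => ?_)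
    (by rw [map_zero]; exact Submodule.zero_mem _) (fun a b ha hb => ?_)
  · by_cases hj : j ≤ w - 2
    · rw [hP.le j hj u hu]
      obtain ⟨n, hn⟩ : ∃ n : ℕ, j = w - ((n + 1 : ℕ) : ℤ) := by
        refine ⟨(w - j - 1).toNat, ?_⟩
        push_cast
        omega
      subst hn
      obtain ⟨x, -, hx⟩ := (hM (n + 1)).surjOn hu
      rw [pow_succ', Module.End.mul_apply] at hx
      exact ⟨_, hx⟩
    · rw [hP.gt j (by omega) u hu]
      exact Submodule.zero_mem _
  · rw [map_add]
    exact Submodule.add_mem _ ha hb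

lemma exists_section {A B : Module.End K V} (h : ∀ v, A v ∈ LinearMap.range B) :
    ∃ s : Module.End K V, B * s = A := by
  obtain ⟨t, ht⟩ := B.rangeRestrict.exists_rightInverse_of_surjective (LinearMap.range_rangeRestrict B)
  refine ⟨t ∘ₗ A.codRestrict _ h, ?_⟩
  ext v
  have := LinearMap.congr_fun ht (A.codRestrict _ h v)
  have h2 := congrArg Subtype.val this
  simpa using h2

/-- **The trace on the kernel of `N`.** Let `e` be an idempotent which commutes with `Φ` and `N`. -/
theorem trace_ker [FiniteDimensional K V] (hq : 2 ≤ q) (hK : Killed q S g Φ)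
    (hN : N * Φ = (q : K) • (Φ * N)) (hM : MonodromyWeight q w Φ N) {P P' : ℚ[X]}
    (hP : IsProjTo q Φ w P) (hP' : IsProjTo q Φ (w - 2) P') {e : Module.End K V}
    (he : e * e = e) (heΦ : Φ * e = e * Φ) (heN : N * e = e * N) (W : Submodule K V)
    (hW : ∀ v, v ∈ W ↔ N v = 0 ∧ e v = v) (n : ℕ) (A : Module.End K V) (hA : A = Φ ^ n)
    (hst : ∀ v ∈ W, A v ∈ W) :
    LinearMap.trace K W (A.restrict hst) =
      LinearMap.trace K V (Φ ^ n * (ev Φ P * e)) -
        (q : K) ^ n * LinearMap.trace K V (Φ ^ n * (ev Φ P' * e)) := by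
  obtain ⟨s, hs⟩ := exists_section (range_le hq hK hM hP')
  set E := ev Φ P with hE
  set E' := ev Φ P' with hE'
  have hEN : E' * N = N * E := proj_N hq hK hN hP hP'
  have hE'2 : E' * E' = E' := by
    refine hK.ext hq fun j v hv => ?_
    rw [Module.End.mul_apply]
    by_cases hj : j ≤ w - 2
    · rw [hE', hP'.le j hj v hv, hP'.le j hj v hv]
    · rw [hE', hP'.gt j (by omega) v hv, map_zero]
  have hE'Φ : ∀ m : ℕ, E' * Φ ^ m = Φ ^ m * E' := by
    intro m
    have := ev_comm Φ P' (X ^ m)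
    rwa [map_pow, ev_X] at this
  have heE : E * e = e * E := ev_commute heΦ P
  have heE' : E' * e = e * E' := ev_commute heΦ P'
  set s' := e * s * e with hs'
  have hNs' : N * s' = E' * e := by
    rw [hs', ← mul_assoc, ← mul_assoc, heN, mul_assoc e N s, hs, ← heE', mul_assoc, he]
  have hes' : e * s' = s' := by
    rw [hs', ← mul_assoc, ← mul_assoc, he]
  set π := E * e - s' * (N * E) with hπ
  have hNπ : N * π = 0 := by
    rw [hπ, mul_sub, ← mul_assoc, ← mul_assoc, hNs', ← hEN]
    have : E' * e * (E' * N) = E' * N * e := by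
      rw [← mul_assoc, mul_assoc E' e E', ← heE', ← mul_assoc, hE'2, mul_assoc, mul_assoc, heN]
    rw [this, sub_self]
  have heπ : e * π = π := by
    rw [hπ, mul_sub, ← mul_assoc, ← mul_assoc, hes', ← heE, mul_assoc, he]
  have h1 : ∀ v, π v ∈ W := by
    intro v
    rw [hW]
    exact ⟨by rw [← Module.End.mul_apply, hNπ, LinearMap.zero_apply],
      by rw [← Module.End.mul_apply, heπ]⟩
  have h2 : ∀ v ∈ W, π v = v := by
    intro v hv
    obtain ⟨hv1, hv2⟩ := (hW v).1 hv
    have h3 : (N * E) v = 0 := by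
      rw [← hEN, Module.End.mul_apply, hv1, map_zero]
    rw [hπ, LinearMap.sub_apply, Module.End.mul_apply, Module.End.mul_apply, hv2, h3, map_zero,
      sub_zero]
    exact ker_N hq hK hN hM hP hv1
  have h4 : LinearMap.trace K W (A.restrict hst) = LinearMap.trace K V (A * π) := by
    have h5 : ∀ v, (A * π) v ∈ W := fun v => hst _ (h1 v)
    have h6 := LinearMap.trace_restrict_eq_of_forall_mem W (A * π) h5
    rw [← h6]
    congr 1
    ext v
    show A (v : V) = A (π v)
    rw [h2 v v.2]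
  rw [h4, hA, hπ, mul_sub, map_sub]
  congr 1
  have hNΦ : N * Φ ^ n = (q : K) ^ n • (Φ ^ n * N) := by
    have := ev_N hN (X ^ n)
    rw [map_pow, ev_X, X_pow_comp, map_pow, map_mul, ev_X, ev_C, smul_mul_assoc, one_mul,
      map_natCast, _root_.smul_pow, smul_mul_assoc] at this
    exact this
  calc LinearMap.trace K V (Φ ^ n * (s' * (N * E)))
      = LinearMap.trace K V ((N * E) * (Φ ^ n * s')) := by
        rw [← mul_assoc, LinearMap.trace_mul_comm]
    _ = LinearMap.trace K V (E' * ((N * Φ ^ n) * s')) := by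
        rw [← hEN]; simp only [mul_assoc]
    _ = LinearMap.trace K V ((q : K) ^ n • (E' * (Φ ^ n * (N * s')))) := by
        rw [hNΦ]; simp only [smul_mul_assoc, mul_smul_comm, mul_assoc]
    _ = (q : K) ^ n * LinearMap.trace K V (Φ ^ n * (E' * e)) := by
        rw [hNs', map_smul, smul_eq_mul, ← mul_assoc E' (Φ ^ n), hE'Φ, mul_assoc (Φ ^ n),
          ← mul_assoc E' E', hE'2]

end main

end Pool.Agent.Q226.IL
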