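import Mathlib

/-!
# The Weil-Deligne representation attached to an `ℓ`-adic representation: traces and invariants
-/

set_option autoImplicit false
set_option linter.unusedSectionVars false

open Polynomial

namespace Pool.Agent.Q226.IL

/-- `exp (t N)` for a nilpotent endomorphism `N` of a finite dimensional vector space. -/
noncomputable def expN {K V : Type} [Field K] [AddCommGroup V] [Module K V] (N : Module.End K V)
    (t : K) : Module.End K V :=
  ∑ k ∈ Finset.range (Module.finrank K V + 1), ((k.factorial : K)⁻¹ * t ^ k) • N ^ k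

/-- Let `G` be the Weil group at `p`, `I` the inertia group, `F` a geometric Frobenius element and `ρ` an
`ℓ`-adic representation of `G`. The pair `(r, N)` is the Weil-Deligne representation attached to `ρ`
(Grothendieck, Deligne): the endomorphism `N` is nilpotent, `r` is a representation of `G` whose
restriction to `I` is trivial on a subgroup of finite index, `N r(g) = r(g) N` for `g ∈ I`,
`N r(F) = p r(F) N`, and `ρ(F ^ n g) = r(F ^ n g) exp (t(g) N)` for all integers `n` and `g ∈ I`, where
`t` is a non-trivial homomorphism from `I` to the additive group of `K`. -/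
structure IsWeilDeligne {G K V : Type} [Group G] [Field K] [AddCommGroup V] [Module K V] (p : ℕ)
    (I : Subgroup G) (F : G) (ρ r : Representation K G V) (N : Module.End K V) : Prop where
  nilpotent : IsNilpotent N
  finite : (MonoidHom.ker r).relIndex I ≠ 0
  inertia : ∀ g ∈ I, N * r g = r g * N
  frob : N * r F = (p : K) • (r F * N)
  exp : ∃ t : G → K, (∀ g ∈ I, ∀ h ∈ I, t (g * h) = t g + t h) ∧ (∃ g ∈ I, t g ≠ 0) ∧
    ∀ n : ℤ, ∀ g ∈ I, ρ (F ^ n * g) = r (F ^ n * g) * expN N (t g)

section exp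

variable {K V : Type} [Field K] [CharZero K] [AddCommGroup V] [Module K V]

/-- a polynomial with coefficients in a vector space and with infinitely many zeros -/
lemma coeff_zero_of_nat {W : Type} [AddCommGroup W] [Module K W] (a : ℕ → W) (d : ℕ)
    (h : ∀ n : ℕ, ∑ k ∈ Finset.range d, ((n : K) ^ k) • a k = 0) : ∀ k < d, a k = 0 := by
  intro k hk
  rw [← Module.forall_dual_apply_eq_zero_iff K]
  intro f
  set P : K[X] := ∑ k ∈ Finset.range d, C (f (a k)) * X ^ k with hP
  have h0 : ∀ n : ℕ, P.eval (n : K) = 0 := by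
    intro n
    have := congrArg f (h n)
    rw [map_sum, map_zero] at this
    rw [hP, eval_finsetSum, ← this]
    refine Finset.sum_congr rfl fun i _ => ?_
    rw [eval_mul, eval_C, eval_pow, eval_X, map_smul, smul_eq_mul, mul_comm]
  have hP0 : P = 0 := by
    refine Polynomial.eq_zero_of_infinite_isRoot P ?_
    refine Set.Infinite.mono (s := Set.range (fun n : ℕ => (n : K))) ?_ ?_
    · rintro _ ⟨n, rfl⟩
      exact h0 n
    · exact Set.infinite_range_of_injective Nat.cast_injective
  have h1 : P.coeff k = f (a k) := by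
    rw [hP, finsetSum_coeff]
    simp only [coeff_C_mul, coeff_X_pow, mul_ite, mul_one, mul_zero]
    rw [Finset.sum_ite_eq (Finset.range d) k, if_pos (Finset.mem_range.2 hk)]
  rw [← h1, hP0, coeff_zero]

lemma expN_zero (N : Module.End K V) : expN N 0 = 1 := by
  rw [expN, Finset.sum_range_succ']
  simp

/-- `exp (t N) = 1 + N Z` -/
lemma expN_eq (N : Module.End K V) (t : K) : ∃ Z, N * Z = Z * N ∧ expN N t = 1 + N * Z := by
  refine ⟨∑ k ∈ Finset.range (Module.finrank K V),
    (((k + 1).factorial : K)⁻¹ * t ^ (k + 1)) • N ^ k, ?_, ?_⟩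
  · rw [Finset.mul_sum, Finset.sum_mul]
    refine Finset.sum_congr rfl fun k _ => ?_
    rw [mul_smul_comm, smul_mul_assoc, ← pow_succ, ← pow_succ']
  · rw [expN, Finset.sum_range_succ', Finset.mul_sum, add_comm]
    congr 1
    · simp
    · refine Finset.sum_congr rfl fun k _ => ?_
      rw [mul_smul_comm, ← pow_succ']

lemma expN_isUnit {N : Module.End K V} (hN : IsNilpotent N) (t : K) : IsUnit (expN N t) := by
  obtain ⟨Z, h1, h2⟩ := expN_eq N t
  rw [h2]
  exact IsNilpotent.isUnit_one_add (Commute.isNilpotent_mul_right (show Commute N Z from h1) hN)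

lemma expN_fix {N : Module.End K V} {v : V} (h : N v = 0) (t : K) : expN N t v = v := by
  obtain ⟨Z, h1, h2⟩ := expN_eq N t
  rw [h2, h1, LinearMap.add_apply, Module.End.one_apply, Module.End.mul_apply, h, map_zero,
    add_zero]

lemma expN_comm {N c : Module.End K V} (h : c * N = N * c) (t : K) :
    c * expN N t = expN N t * c := by
  rw [expN, Finset.mul_sum, Finset.sum_mul]
  refine Finset.sum_congr rfl fun k _ => ?_
  rw [mul_smul_comm, smul_mul_assoc, (Commute.pow_right (show Commute c N from h) k).eq]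

lemma expN_sum (N : Module.End K V) (n : ℕ) (τ : K) : expN N ((n : K) * τ) =
    ∑ k ∈ Finset.range (Module.finrank K V + 1),
      ((n : K) ^ k) • (((k.factorial : K)⁻¹ * τ ^ k) • N ^ k) := by
  rw [expN]
  refine Finset.sum_congr rfl fun k _ => ?_
  rw [smul_smul]
  congr 1
  ring

/-- an endomorphism which commutes with all powers of `exp (τ N)` -/
lemma comm_of_expN [FiniteDimensional K V] {N c : Module.End K V} {τ : K} (hτ : τ ≠ 0)
    (h : ∀ n : ℕ, c * expN N ((n : K) * τ) = expN N ((n : K) * τ) * c) : c * N = N * c := by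
  rcases Nat.eq_zero_or_pos (Module.finrank K V) with h0 | h0
  · have := Module.finrank_zero_iff.1 h0
    ext v
    exact Subsingleton.elim _ _
  have key := coeff_zero_of_nat (K := K)
    (fun k => ((k.factorial : K)⁻¹ * τ ^ k) • (c * N ^ k - N ^ k * c))
    (Module.finrank K V + 1) (fun n => ?_) 1 (by omega)
  · simp only [Nat.factorial_one, Nat.cast_one, inv_one, pow_one, one_mul, smul_eq_zero] at key
    exact sub_eq_zero.1 (key.resolve_left hτ)
  · have h1 := sub_eq_zero.2 (h n)
    rw [expN_sum, Finset.mul_sum, Finset.sum_mul, ← Finset.sum_sub_distrib] at h1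
    rw [← h1]
    refine Finset.sum_congr rfl fun k _ => ?_
    rw [smul_sub, smul_sub, mul_smul_comm, mul_smul_comm, smul_mul_assoc, smul_mul_assoc]

/-- a vector fixed by all powers of `exp (τ N)` -/
lemma fix_of_expN [FiniteDimensional K V] {N : Module.End K V} {v : V} {τ : K} (hτ : τ ≠ 0)
    (h : ∀ n : ℕ, expN N ((n : K) * τ) v = v) : N v = 0 := by
  rcases Nat.eq_zero_or_pos (Module.finrank K V) with h0 | h0
  · have := Module.finrank_zero_iff.1 h0
    exact Subsingleton.elim _ _
  have key := coeff_zero_of_nat (K := K)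
    (fun k => if k = 0 then 0 else ((k.factorial : K)⁻¹ * τ ^ k) • (N ^ k) v)
    (Module.finrank K V + 1) (fun n => ?_) 1 (by omega)
  · simp only [one_ne_zero, if_false, Nat.factorial_one, Nat.cast_one, inv_one, pow_one, one_mul,
      smul_eq_zero] at key
    exact key.resolve_left hτ
  · have h1 := sub_eq_zero.2 (h n)
    rw [expN_sum, LinearMap.sum_apply, Finset.sum_range_succ'] at h1
    rw [Finset.sum_range_succ']
    simp only [Nat.add_eq_zero_iff, one_ne_zero, and_false, if_false, if_true, smul_zero, add_zero]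
    simp only [LinearMap.smul_apply, pow_zero, Nat.factorial_zero, Nat.cast_one, inv_one, one_mul,
      one_smul, Module.End.one_apply, add_sub_cancel_right] at h1
    exact h1

end exp

section average

variable {G K V : Type} [Group G] [Field K] [CharZero K] [AddCommGroup V] [Module K V]

/-- the quotient of inertia by a normal subgroup `J` of `G` -/
abbrev Quo (I J : Subgroup G) : Type := I ⧸ J.subgroupOf I

variable {I J : Subgroup G} [J.Normal] [Fintype (Quo I J)] {r : Representation K G V}

/-- the mean value of `r` over inertia -/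
noncomputable def avg (I J : Subgroup G) [Fintype (Quo I J)] (r : Representation K G V) :
    Module.End K V :=
  (Fintype.card (Quo I J) : K)⁻¹ • ∑ x : Quo I J, r ((x.out : I) : G)

lemma r_out (hJ : J ≤ MonoidHom.ker r) (g : I) :
    r (((QuotientGroup.mk g : Quo I J).out : I) : G) = r (g : G) := by
  obtain ⟨h, hh⟩ := QuotientGroup.mk_out_eq_mul (J.subgroupOf I) g
  have h' : r (((h : I)) : G) = 1 := MonoidHom.mem_ker.1 (hJ (Subgroup.mem_subgroupOf.1 h.2))
  rw [hh, Subgroup.coe_mul, map_mul, h', mul_one]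

lemma card_ne : (Fintype.card (Quo I J) : K) ≠ 0 := by
  have : Nonempty (Quo I J) := ⟨QuotientGroup.mk 1⟩
  exact_mod_cast Fintype.card_ne_zero

lemma r_avg (hJ : J ≤ MonoidHom.ker r) {g : G} (hg : g ∈ I) : r g * avg I J r = avg I J r := by
  rw [avg, mul_smul_comm, Finset.mul_sum]
  congr 1
  refine Fintype.sum_equiv (Equiv.mulLeft (QuotientGroup.mk (⟨g, hg⟩ : I))) _ _ fun x => ?_
  obtain ⟨y, rfl⟩ := QuotientGroup.mk_surjective x
  have e : Equiv.mulLeft (QuotientGroup.mk (⟨g, hg⟩ : I) : Quo I J) (QuotientGroup.mk y) =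
    QuotientGroup.mk (⟨g, hg⟩ * y) := rfl
  rw [e, r_out hJ, r_out hJ, Subgroup.coe_mul, map_mul]

lemma avg_r (hJ : J ≤ MonoidHom.ker r) {g : G} (hg : g ∈ I) : avg I J r * r g = avg I J r := by
  rw [avg, smul_mul_assoc, Finset.sum_mul]
  congr 1
  refine Fintype.sum_equiv (Equiv.mulRight (QuotientGroup.mk (⟨g, hg⟩ : I))) _ _ fun x => ?_
  obtain ⟨y, rfl⟩ := QuotientGroup.mk_surjective x
  have e : Equiv.mulRight (QuotientGroup.mk (⟨g, hg⟩ : I) : Quo I J) (QuotientGroup.mk y) =
    QuotientGroup.mk (y * ⟨g, hg⟩) := rfl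
  rw [e, r_out hJ, r_out hJ, Subgroup.coe_mul, map_mul]

lemma avg_fix {A : Module.End K V} (h : ∀ g ∈ I, r g * A = A) : avg I J r * A = A := by
  rw [avg, smul_mul_assoc, Finset.sum_mul]
  rw [Finset.sum_congr rfl fun x _ => h _ (x.out : I).2, Finset.sum_const, Finset.card_univ,
    ← Nat.cast_smul_eq_nsmul K, smul_smul, inv_mul_cancel₀ card_ne, one_smul]

lemma fix_avg {A : Module.End K V} (h : ∀ g ∈ I, A * r g = A) : A * avg I J r = A := by
  rw [avg, mul_smul_comm, Finset.mul_sum]
  rw [Finset.sum_congr rfl fun x _ => h _ (x.out : I).2, Finset.sum_const, Finset.card_univ,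
    ← Nat.cast_smul_eq_nsmul K, smul_smul, inv_mul_cancel₀ card_ne, one_smul]

lemma avg_apply_fix {v : V} (h : ∀ g ∈ I, r g v = v) : avg I J r v = v := by
  rw [avg, LinearMap.smul_apply, LinearMap.sum_apply]
  rw [Finset.sum_congr rfl fun x _ => h _ (x.out : I).2, Finset.sum_const, Finset.card_univ,
    ← Nat.cast_smul_eq_nsmul K, smul_smul, inv_mul_cancel₀ card_ne, one_smul]

lemma avg_idem (hJ : J ≤ MonoidHom.ker r) : avg I J r * avg I J r = avg I J r :=
  avg_fix fun _ hg => r_avg hJ hg

lemma avg_comm {A : Module.End K V} (h : ∀ g ∈ I, A * r g = r g * A) :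
    A * avg I J r = avg I J r * A := by
  rw [avg, mul_smul_comm, smul_mul_assoc, Finset.mul_sum, Finset.sum_mul]
  congr 1
  exact Finset.sum_congr rfl fun x _ => h _ (x.out : I).2

/-- the mean value commutes with the elements of `G` -/
lemma avg_G [I.Normal] (hJ : J ≤ MonoidHom.ker r) (F : G) :
    r F * avg I J r = avg I J r * r F := by
  have h1 : avg I J r * (r F * avg I J r) = r F * avg I J r := by
    refine avg_fix fun g hg => ?_
    have h2 : F⁻¹ * g * F ∈ I := by
      have := ‹I.Normal›.conj_mem g hg F⁻¹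
      rwa [inv_inv] at this
    have h3 : r g * r F = r F * r (F⁻¹ * g * F) := by
      rw [← map_mul, ← map_mul]
      congr 1
      group
    rw [← mul_assoc, h3, mul_assoc, r_avg hJ h2]
  have h4 : avg I J r * r F * avg I J r = avg I J r * r F := by
    refine fix_avg fun g hg => ?_
    have h2 : F * g * F⁻¹ ∈ I := ‹I.Normal›.conj_mem g hg F
    have h3 : r F * r g = r (F * g * F⁻¹) * r F := by
      rw [← map_mul, ← map_mul]
      congr 1
      group
    rw [mul_assoc, h3, ← mul_assoc, avg_r hJ h2]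
  rw [← h1, ← mul_assoc, h4]

end average

section wd

variable {G K V : Type} [Group G] [Field K] [CharZero K] [AddCommGroup V] [Module K V]
  [FiniteDimensional K V] {p : ℕ} {I : Subgroup G} {F : G} {ρ r : Representation K G V}
  {N : Module.End K V}

/-- an element of inertia on which `r` is trivial and `t` is not -/
lemma IsWeilDeligne.exists_elt (h : IsWeilDeligne p I F ρ r N) :
    ∃ g ∈ I, ∃ τ : K, τ ≠ 0 ∧ ∀ n : ℕ, ρ (g ^ n) = expN N ((n : K) * τ) := by
  obtain ⟨t, ht, ⟨g₀, hg₀, ht0⟩, hρ⟩ := h.exp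
  have t1 : t 1 = 0 := by
    have := ht 1 I.one_mem 1 I.one_mem
    rw [mul_one] at this
    exact (left_eq_add.1 this)
  have tpow : ∀ g ∈ I, ∀ n : ℕ, t (g ^ n) = (n : K) * t g := by
    intro g hg n
    induction n with
    | zero => simp [t1]
    | succ n ih =>
      rw [pow_succ, ht _ (I.pow_mem hg n) _ hg, ih]
      push_cast
      ring
  obtain ⟨m, hm, -, hm2⟩ := Subgroup.exists_pow_mem_of_relIndex_ne_zero h.finite hg₀
  have hk : r (g₀ ^ m) = 1 := MonoidHom.mem_ker.1 hm2.1
  refine ⟨g₀ ^ m, hm2.2, t (g₀ ^ m), ?_, fun n => ?_⟩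
  · rw [tpow _ hg₀]
    exact mul_ne_zero (by exact_mod_cast hm.ne') ht0
  · have h1 := hρ 0 ((g₀ ^ m) ^ n) (I.pow_mem hm2.2 n)
    rw [zpow_zero, one_mul, map_pow r, hk, one_pow, one_mul, tpow _ hm2.2] at h1
    exact h1

lemma IsWeilDeligne.rho_F (h : IsWeilDeligne p I F ρ r N) : ρ F = r F := by
  obtain ⟨t, ht, -, hρ⟩ := h.exp
  have t1 : t 1 = 0 := by
    have := ht 1 I.one_mem 1 I.one_mem
    rw [mul_one] at this
    exact (left_eq_add.1 this)
  have := hρ 1 1 I.one_mem
  rwa [zpow_one, mul_one, t1, expN_zero, mul_one] at this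

/-- an endomorphism of the representation commutes with `N` and `r` -/
lemma IsWeilDeligne.comm (h : IsWeilDeligne p I F ρ r N) {c : Module.End K V}
    (hc : ∀ g, c * ρ g = ρ g * c) : c * N = N * c ∧ ∀ g ∈ I, c * r g = r g * c := by
  obtain ⟨g, hg, τ, hτ, h1⟩ := h.exists_elt
  have h2 : c * N = N * c := comm_of_expN hτ fun n => by rw [← h1, hc]
  refine ⟨h2, fun g hg => ?_⟩
  obtain ⟨t, ht, -, hρ⟩ := h.exp
  have h3 := hρ 0 g hg
  rw [zpow_zero, one_mul] at h3
  have h4 := hc g
  rw [h3, ← mul_assoc, mul_assoc (r g), ← expN_comm h2, ← mul_assoc] at h4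
  exact (expN_isUnit h.nilpotent (t g)).mul_right_cancel h4

lemma N_pow (h : IsWeilDeligne p I F ρ r N) (n : ℕ) :
    N * r F ^ n = ((p : K) ^ n) • (r F ^ n * N) := by
  induction n with
  | zero => simp
  | succ n ih =>
    rw [pow_succ, ← mul_assoc, ih, smul_mul_assoc, mul_assoc, h.frob, mul_smul_comm, smul_smul,
      ← mul_assoc, ← pow_succ, ← pow_succ]

/-- the trace does not see the monodromy -/
lemma trace_rho (hp : 2 ≤ p) (h : IsWeilDeligne p I F ρ r N) {c : Module.End K V}
    (hc : ∀ g, c * ρ g = ρ g * c) {n : ℕ} (hn : 0 < n) {g : G} (hg : g ∈ I) :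
    LinearMap.trace K V (c * ρ (F ^ n * g)) = LinearMap.trace K V (c * (r F ^ n * r g)) := by
  obtain ⟨t, ht, -, hρ⟩ := h.exp
  have h1 := hρ n g hg
  rw [zpow_natCast] at h1
  have h2 := (h.comm hc).1
  set A := c * (r F ^ n * r g) with hA
  have hNA : N * A = ((p : K) ^ n) • (A * N) := by
    rw [hA, ← mul_assoc, ← h2, mul_assoc, ← mul_assoc N, N_pow h, smul_mul_assoc, mul_assoc,
      h.inertia g hg, mul_smul_comm]
    simp only [mul_assoc]
  have hNk : ∀ k : ℕ, N ^ k * A = (((p : K) ^ n) ^ k) • (A * N ^ k) := by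
    intro k
    induction k with
    | zero => simp
    | succ k ih =>
      rw [pow_succ', mul_assoc, ih, mul_smul_comm, ← mul_assoc, hNA, smul_mul_assoc, mul_assoc,
        ← pow_succ', smul_smul, ← pow_succ]
  have htr : ∀ k : ℕ, 0 < k → LinearMap.trace K V (A * N ^ k) = 0 := by
    intro k hk
    have h3 := LinearMap.trace_mul_comm K (N ^ k) A
    rw [hNk, map_smul, smul_eq_mul] at h3
    have h4 : ((p : K) ^ n) ^ k ≠ 1 := by
      have : (1 : ℕ) < (p ^ n) ^ k := Nat.one_lt_pow hk.ne' (Nat.one_lt_pow hn.ne' (by omega))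
      exact_mod_cast this.ne'
    have h5 : (((p : K) ^ n) ^ k - 1) * LinearMap.trace K V (A * N ^ k) = 0 := by
      rw [sub_mul, one_mul, h3, sub_self]
    exact (mul_eq_zero.1 h5).resolve_left (sub_ne_zero.2 h4)
  rw [h1, map_mul r, map_pow r, ← mul_assoc, ← hA, expN, Finset.mul_sum, map_sum,
    Finset.sum_eq_single 0]
  · simp
  · intro k _ hk
    rw [mul_smul_comm, map_smul, htr k (Nat.pos_of_ne_zero hk), smul_zero]
  · intro h0
    exact absurd (Finset.mem_range.2 (Nat.succ_pos _)) h0

variable {J : Subgroup G} [J.Normal] [Fintype (Quo I J)]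

/-- the invariants of inertia in the image of an idempotent `c` -/
lemma mem_invariants [I.Normal] (h : IsWeilDeligne p I F ρ r N) (hJ : J ≤ MonoidHom.ker r)
    {c : Module.End K V} (hc : ∀ g, c * ρ g = ρ g * c) (hcc : c * c = c) (v : V) :
    (v ∈ LinearMap.range c ∧ ∀ g ∈ I, ρ g v = v) ↔ N v = 0 ∧ (c * avg I J r) v = v := by
  obtain ⟨h1, h2⟩ := h.comm hc
  obtain ⟨t, ht, -, hρ⟩ := h.exp
  have h3 : ∀ g ∈ I, ρ g = r g * expN N (t g) := by
    intro g hg
    have := hρ 0 g hg
    rwa [zpow_zero, one_mul] at this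
  have h4 : c * avg I J r = avg I J r * c := avg_comm h2
  constructor
  · rintro ⟨⟨u, rfl⟩, hv⟩
    have hN : N (c u) = 0 := by
      obtain ⟨g, hg, τ, hτ, h5⟩ := h.exists_elt
      refine fix_of_expN hτ fun n => ?_
      rw [← h5]
      exact hv _ (I.pow_mem hg n)
    refine ⟨hN, ?_⟩
    have h6 : avg I J r (c u) = c u := by
      refine avg_apply_fix fun g hg => ?_
      have := hv g hg
      rwa [h3 g hg, Module.End.mul_apply, expN_fix hN] at this
    rw [Module.End.mul_apply, h6, ← Module.End.mul_apply, hcc]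
  · rintro ⟨hN, hv⟩
    have h5 : avg I J r v = v := by
      rw [← hv, ← Module.End.mul_apply, ← mul_assoc, ← h4, mul_assoc, avg_idem hJ]
    refine ⟨⟨avg I J r v, hv⟩, fun g hg => ?_⟩
    rw [h3 g hg, Module.End.mul_apply, expN_fix hN]
    conv_lhs => rw [← h5]
    rw [← Module.End.mul_apply, r_avg hJ hg, h5]

end wd

end Pool.Agent.Q226.IL
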