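import Pool.Agent.Q226.IL.Defs

/-!
# Independence of `ℓ` of local Euler factors: proof
-/

set_option autoImplicit false
set_option linter.unusedSectionVars false

open Polynomial

namespace Pool.Agent.Q226.IL

open Pool.Agent.Q187.IL (revPoly newton indep_of_indepTrace IndepTrace)

/-- `∑ a_k s(n + k)` for `R = ∑ a_k X ^ k` -/
noncomputable def pairing (R : ℚ[X]) (s : ℕ → ℚ) (n : ℕ) : ℚ := R.sum fun k a => a * s (n + k)

section lin

variable {K V : Type} [Field K] [CharZero K] [AddCommGroup V] [Module K V] [FiniteDimensional K V]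

lemma trace_ev {Φ B : Module.End K V} {s : ℕ → ℚ}
    (h : ∀ m, LinearMap.trace K V (Φ ^ (m + 1) * B) = algebraMap ℚ K (s m)) (R : ℚ[X]) (n : ℕ) :
    LinearMap.trace K V (Φ ^ (n + 1) * (ev Φ R * B)) = algebraMap ℚ K (pairing R s n) := by
  unfold pairing
  induction R using Polynomial.induction_on' with
  | add p q hp hq =>
    rw [Polynomial.sum_add_index p q _ (fun i => by rw [zero_mul])
      (fun i a b => by rw [add_mul]), map_add, add_mul, mul_add, map_add, hp, hq, map_add]
  | monomial k a =>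
    have e : ev Φ (C a * X ^ k) = (algebraMap ℚ K a) • Φ ^ k := by
      rw [map_mul, map_pow, ev_X, ev_C, smul_mul_assoc, one_mul]
    rw [Polynomial.sum_monomial_index a _ (by rw [zero_mul]), ← C_mul_X_pow_eq_monomial, e,
      smul_mul_assoc, mul_smul_comm, ← mul_assoc, ← pow_add,
      show n + 1 + k = (n + k) + 1 by ring, map_smul, h, smul_eq_mul, map_mul]

/-- an endomorphism all of whose powers have trace zero is nilpotent -/
lemma nilpotent_of_trace {f : Module.End K V} (h : ∀ n : ℕ, LinearMap.trace K V (f ^ (n + 1)) = 0) :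
    f ^ Module.finrank K V = 0 := by
  have h1 : ∀ k, (revPoly f).coeff (k + 1) = 0 := by
    intro k
    have h2 := newton f k
    rw [Finset.sum_eq_zero (fun p _ => by rw [h, mul_zero]), neg_zero, mul_eq_zero] at h2
    exact h2.resolve_right (by exact_mod_cast Nat.succ_ne_zero k)
  have h2 : f.charpoly = X ^ (Module.finrank K V) := by
    have hd := LinearMap.charpoly_natDegree f
    ext i
    rw [coeff_X_pow]
    rcases lt_trichotomy i (Module.finrank K V) with hi | hi | hi
    · rw [if_neg (by omega)]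
      have h3 := h1 (Module.finrank K V - i - 1)
      rw [show Module.finrank K V - i - 1 + 1 = Module.finrank K V - i by omega, revPoly,
        coeff_reverse, hd, revAt_le (by omega)] at h3
      rwa [show Module.finrank K V - (Module.finrank K V - i) = i by omega] at h3
    · subst hi
      rw [if_pos rfl, ← hd]
      exact (LinearMap.charpoly_monic f).coeff_natDegree
    · rw [if_neg (by omega)]
      exact coeff_eq_zero_of_natDegree_lt (by rw [hd]; exact hi)
  have h3 := LinearMap.aeval_self_charpoly f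
  rwa [h2, map_pow, aeval_X] at h3

end lin

section single

variable {G K V : Type} [Group G] [Field K] [CharZero K] [AddCommGroup V] [Module K V]
  [FiniteDimensional K V] {p : ℕ} {I J : Subgroup G} [I.Normal] [J.Normal] [Fintype (Quo I J)]
  {F : G} {ρ r : Representation K G V} {N c : Module.End K V}

/-- The traces of the powers of Frobenius on the invariants of inertia in the image of an idempotent `c`
are given by a formula which does not depend on `ℓ`. -/
theorem trace_inv (hp : 2 ≤ p) (h : IsWeilDeligne p I F ρ r N) (hJ : J ≤ MonoidHom.ker r)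
    {S : Finset ℤ} {g : ℤ → ℚ[X]} (hK : Killed p S g (r F)) {w : ℤ}
    (hM : MonodromyWeight p w (r F) N) {P P' : ℚ[X]} (hP : IsProjTo p (r F) w P)
    (hP' : IsProjTo p (r F) (w - 2) P') (hc : ∀ g, c * ρ g = ρ g * c) (hcc : c * c = c)
    {τ : ℕ → G → ℚ} (hτ : ∀ (m : ℕ), ∀ g ∈ I,
      LinearMap.trace K V (c * ρ (F ^ (m + 1) * g)) = algebraMap ℚ K (τ m g))
    (W : Submodule K V) (hW : ∀ v, v ∈ W ↔ v ∈ LinearMap.range c ∧ ∀ g ∈ I, ρ g v = v) (n : ℕ)
    (A : Module.End K V) (hA : A = ρ F ^ (n + 1)) (hst : ∀ v ∈ W, A v ∈ W) :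
    LinearMap.trace K W (A.restrict hst) = algebraMap ℚ K
      (pairing P (fun m => (Fintype.card (Quo I J) : ℚ)⁻¹ * ∑ x : Quo I J, τ m (x.out : I)) n -
        (p : ℚ) ^ (n + 1) *
        pairing P' (fun m => (Fintype.card (Quo I J) : ℚ)⁻¹ * ∑ x : Quo I J, τ m (x.out : I)) n) := by
  obtain ⟨hcN, hcr⟩ := h.comm hc
  have hcF : c * r F = r F * c := by rw [← h.rho_F]; exact hc F
  set e := avg I J r with he
  have hce : c * e = e * c := avg_comm hcr
  have hee : e * e = e := avg_idem hJ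
  have heF : r F * e = e * r F := avg_G hJ F
  have heN : N * e = e * N := avg_comm h.inertia
  have hk := trace_ker hp hK h.frob hM hP hP' (e := c * e)
    (by rw [mul_assoc, ← mul_assoc e c e, ← hce, mul_assoc c e e, hee, ← mul_assoc, hcc])
    (by rw [← mul_assoc, ← hcF, mul_assoc, heF, ← mul_assoc])
    (by rw [← mul_assoc, ← hcN, mul_assoc, heN, ← mul_assoc]) W
    (fun v => (hW v).trans (mem_invariants h hJ hc hcc v)) (n + 1) A
    (by rw [hA, h.rho_F]) hst
  have hs : ∀ m : ℕ, LinearMap.trace K V (r F ^ (m + 1) * (c * e)) = algebraMap ℚ K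
      ((Fintype.card (Quo I J) : ℚ)⁻¹ * ∑ x : Quo I J, τ m (x.out : I)) := by
    intro m
    rw [he, avg, mul_smul_comm, mul_smul_comm, map_smul, smul_eq_mul, Finset.mul_sum,
      Finset.mul_sum, map_sum, map_mul, map_inv₀, map_natCast, map_sum]
    congr 1
    refine Finset.sum_congr rfl fun x _ => ?_
    rw [← hτ m _ (x.out : I).2, trace_rho hp h hc (Nat.succ_pos m) (x.out : I).2, ← mul_assoc,
      ← (Commute.pow_right (show Commute c (r F) from hcF) (m + 1)).eq, mul_assoc]
  rw [hk, trace_ev hs P n, trace_ev hs P' n, map_sub, map_mul, map_pow, map_natCast]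

end single

section two

variable {G K V K' V' : Type} [Group G] [Field K] [CharZero K] [AddCommGroup V] [Module K V]
  [FiniteDimensional K V] [Field K'] [CharZero K'] [AddCommGroup V'] [Module K' V']
  [FiniteDimensional K' V']

/-- If the traces of the positive powers agree, the eigenvalues are killed by the same polynomials. -/
lemma killed_of_traces {q : ℕ} {Φ : Module.End K V} {Φ' : Module.End K' V'} (hu : IsUnit Φ')
    {t : ℕ → ℚ} (ht : ∀ m, LinearMap.trace K V (Φ ^ (m + 1)) = algebraMap ℚ K (t m))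
    (ht' : ∀ m, LinearMap.trace K' V' (Φ' ^ (m + 1)) = algebraMap ℚ K' (t m)) (hm : Mixed q Φ) :
    ∃ (S : Finset ℤ) (g : ℤ → ℚ[X]), Killed q S g Φ ∧ Killed q S g Φ' := by
  obtain ⟨S, g, hg, h0⟩ := hm
  set Q := ∏ j ∈ S, g j with hQ
  have key : ∀ n : ℕ, LinearMap.trace K' V' ((Φ' * ev Φ' Q) ^ (n + 1)) = 0 := by
    intro n
    have h1 : (Φ' * ev Φ' Q) ^ (n + 1) = Φ' ^ (n + 1) * (ev Φ' (Q ^ (n + 1)) * 1) := by
      have hc : Commute Φ' (ev Φ' Q) := by
        have := ev_comm Φ' X Q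
        rwa [ev_X] at this
      rw [hc.mul_pow, map_pow, mul_one]
    have h2 : LinearMap.trace K V (Φ ^ (n + 1) * (ev Φ (Q ^ (n + 1)) * 1)) = 0 := by
      rw [map_pow, h0, zero_pow (Nat.succ_ne_zero n), zero_mul, mul_zero, map_zero]
    rw [trace_ev (s := t) (fun m => by rw [mul_one]; exact ht m)] at h2
    rw [h1, trace_ev (s := t) (fun m => by rw [mul_one]; exact ht' m),
      (map_eq_zero (algebraMap ℚ K)).1 h2, map_zero]
  have h3 := nilpotent_of_trace key
  set d := Module.finrank K' V' with hd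
  have h4 : ev Φ' (Q ^ (d + 1)) = 0 := by
    have hc : Commute Φ' (ev Φ' Q) := by
      have := ev_comm Φ' X Q
      rwa [ev_X] at this
    rw [hc.mul_pow] at h3
    have h5 : ev Φ' Q ^ d = 0 := by
      have hu' : IsUnit (Φ' ^ d) := hu.pow d
      rw [hu'.mul_right_eq_zero] at h3
      exact h3
    rw [map_pow, pow_succ, h5, zero_mul]
  refine ⟨S, fun j => g j ^ (d + 1), ⟨fun j => (hg j).pow _, ?_⟩, fun j => (hg j).pow _, ?_⟩
  · rw [Finset.prod_pow, map_pow, h0, zero_pow (Nat.succ_ne_zero d)]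
  · rw [Finset.prod_pow, h4]

/-- **Two primes.** -/
theorem two_primes {p : ℕ} (hp : 2 ≤ p) {I : Subgroup G} [I.Normal] {F : G}
    {ρ r : Representation K G V} {N c : Module.End K V}
    {ρ' r' : Representation K' G V'} {N' c' : Module.End K' V'}
    (h : IsWeilDeligne p I F ρ r N) (h' : IsWeilDeligne p I F ρ' r' N') {w : ℤ}
    (hmix : Mixed p (r F))
    (hM : MonodromyWeight p w (r F) N) (hM' : MonodromyWeight p w (r' F) N')
    (hc : ∀ g, c * ρ g = ρ g * c) (hc' : ∀ g, c' * ρ' g = ρ' g * c') (hcc : c * c = c)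
    (hcc' : c' * c' = c') {τ : ℕ → G → ℚ}
    (hτ : ∀ (m : ℕ), ∀ g ∈ I, LinearMap.trace K V (c * ρ (F ^ (m + 1) * g)) = algebraMap ℚ K (τ m g))
    (hτ' : ∀ (m : ℕ), ∀ g ∈ I,
      LinearMap.trace K' V' (c' * ρ' (F ^ (m + 1) * g)) = algebraMap ℚ K' (τ m g))
    {t : ℕ → ℚ} (ht : ∀ m, LinearMap.trace K V (ρ F ^ (m + 1)) = algebraMap ℚ K (t m))
    (ht' : ∀ m, LinearMap.trace K' V' (ρ' F ^ (m + 1)) = algebraMap ℚ K' (t m))
    (W : Submodule K V) (hW : ∀ v, v ∈ W ↔ v ∈ LinearMap.range c ∧ ∀ g ∈ I, ρ g v = v)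
    (W' : Submodule K' V') (hW' : ∀ v, v ∈ W' ↔ v ∈ LinearMap.range c' ∧ ∀ g ∈ I, ρ' g v = v)
    (n : ℕ) (A : Module.End K V) (hA : A = ρ F ^ (n + 1)) (hst : ∀ v ∈ W, A v ∈ W)
    (A' : Module.End K' V') (hA' : A' = ρ' F ^ (n + 1)) (hst' : ∀ v ∈ W', A' v ∈ W') :
    ∃ u : ℚ, LinearMap.trace K W (A.restrict hst) = algebraMap ℚ K u ∧
      LinearMap.trace K' W' (A'.restrict hst') = algebraMap ℚ K' u := by
  classical
  have hu' : IsUnit (r' F) := by
    refine isUnit_iff_exists.2 ⟨r' F⁻¹, ?_, ?_⟩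
    · rw [← map_mul, mul_inv_cancel, map_one]
    · rw [← map_mul, inv_mul_cancel, map_one]
  obtain ⟨S, g, hK, hK'⟩ := killed_of_traces hu' (t := t)
    (fun m => by rw [← h.rho_F]; exact ht m) (fun m => by rw [← h'.rho_F]; exact ht' m) hmix
  obtain ⟨P, hP⟩ := exists_proj hp S g hK.pure w
  obtain ⟨P', hP'⟩ := exists_proj hp S g hK.pure (w - 2)
  let J : Subgroup G := MonoidHom.ker r ⊓ MonoidHom.ker r'
  have hJfin : J.relIndex I ≠ 0 := Subgroup.relIndex_inf_ne_zero h.finite h'.finite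
  have : Finite (Quo I J) := by
    have : (J.subgroupOf I).FiniteIndex := ⟨hJfin⟩
    infer_instance
  have : Fintype (Quo I J) := Fintype.ofFinite _
  have : J.Normal := inferInstance
  exact ⟨_, trace_inv hp h inf_le_left hK hM (hP K V (r F) hK) (hP' K V (r F) hK) hc hcc hτ W hW n A
    hA hst, trace_inv hp h' inf_le_right hK' hM' (hP K' V' (r' F) hK') (hP' K' V' (r' F) hK') hc'
    hcc' hτ' W' hW' n A' hA' hst'⟩

end two

section frob

variable {G K V : Type} [Group G] [Field K] [CharZero K] [AddCommGroup V] [Module K V]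
  [FiniteDimensional K V] {I : Subgroup G} [I.Normal] {F : G} {ρ : Representation K G V}
  {c : Module.End K V}

lemma frob_stable (hc : Commutes ρ c) (n : ℕ) :
    ∀ v ∈ invariants I ρ c, (ρ F ^ n) v ∈ invariants I ρ c := by
  intro v hv
  induction n with
  | zero => simpa using hv
  | succ n ih =>
    rw [pow_succ', Module.End.mul_apply]
    obtain ⟨⟨u, hu⟩, h2⟩ := ih
    refine ⟨⟨ρ F u, ?_⟩, fun g hg => ?_⟩
    · rw [← Module.End.mul_apply, hc F, Module.End.mul_apply, hu]
    · have h3 : F⁻¹ * g * F ∈ I := by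
        have := ‹I.Normal›.conj_mem g hg F⁻¹
        rwa [inv_inv] at this
      have h4 := h2 _ h3
      rw [← Module.End.mul_apply, ← map_mul]
      have h5 : g * F = F * (F⁻¹ * g * F) := by group
      rw [h5, map_mul, Module.End.mul_apply, h4]

/-- the powers of Frobenius on the invariants -/
lemma frob_pow (hc : Commutes ρ c) {a : K} {f : Module.End K (invariants I ρ c)}
    (hf : IsFrobenius I ρ c F a f) (n : ℕ) :
    f ^ n = (a ^ n) • (ρ F ^ n).restrict (frob_stable (I := I) (F := F) hc n) := by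
  have key : ∀ v : invariants I ρ c, ((f ^ n) v : V) = (a ^ n) • (ρ F ^ n) v := by
    induction n with
    | zero => intro v; simp
    | succ n ih =>
      intro v
      rw [pow_succ', Module.End.mul_apply, hf, ih, map_smul, smul_smul, ← pow_succ',
        ← Module.End.mul_apply, ← pow_succ']
  ext v
  rw [key v]
  rfl

/-- Frobenius on the invariants exists and is unique. -/
lemma exists_frob (hc : Commutes ρ c) (a : K) : ∃! f, IsFrobenius I ρ c F a f := by
  refine ⟨a • (ρ F ^ 1).restrict (frob_stable hc 1), fun v => by simp, fun f' h => ?_⟩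
  ext v
  rw [h v]
  simp

end frob

namespace Data

variable {D : Data}

/-- the projector of a motive on one cohomology group: rational traces -/
lemma rational_trace (hD : D.Facts) {X : D.Var} (hX : D.HasKuenneth X) (c : D.Cor X) {j : ℕ}
    (hj : j ≤ 2 * D.dim X) (n : ℕ) (g : D.G) (hg : g ∈ D.I) : ∃ t : ℚ, ∀ l : D.Pr,
      LinearMap.trace (D.K l) (D.H l X j) (D.act l X j c * D.rho l X j (D.F ^ (n + 1) * g)) =
        algebraMap ℚ (D.K l) t := by
  obtain ⟨e, he⟩ := hX j
  obtain ⟨t, ht⟩ := hD.saito X (c * e) n g hg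
  refine ⟨(-1) ^ j * t, fun l => ?_⟩
  have h1 := ht l
  simp only [altTrace, tr] at h1
  rw [Finset.sum_eq_single j] at h1
  · rw [map_mul (D.act l X j), he l j, if_pos rfl, mul_one] at h1
    rw [map_mul (algebraMap ℚ (D.K l)), ← h1, ← mul_assoc]
    have : (algebraMap ℚ (D.K l)) ((-1) ^ j) = (-1) ^ j := by simp
    rw [this, ← pow_add, ← two_mul, pow_mul]
    simp
  · intro i _ hi
    rw [map_mul (D.act l X i), he l i, if_neg hi, mul_zero, zero_mul, map_zero, mul_zero]
  · intro h
    exact absurd (Finset.mem_range.2 (by omega)) h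

lemma rational_trace' (hD : D.Facts) {X : D.Var} (hX : D.HasKuenneth X) (c : D.Cor X) (j : ℤ)
    (h0 : 0 ≤ j) (hj : j ≤ 2 * (D.dim X : ℤ)) (n : ℕ) (g : D.G) (hg : g ∈ D.I) :
    ∃ t : ℚ, ∀ l : D.Pr,
      LinearMap.trace (D.K l) (D.H l X j) (D.act l X j c * D.rho l X j (D.F ^ (n + 1) * g)) =
        algebraMap ℚ (D.K l) t := by
  lift j to ℕ using h0
  exact rational_trace hD hX c (by omega) n g hg

/-- **Main theorem**: algebraic Kuenneth projectors and the weight-monodromy conjecture imply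
independence of `ℓ`. -/
theorem independent (hD : D.Facts) (M : Motive D) (hX : D.HasKuenneth M.X) (hP : D.IsPure M.X)
    (i : ℤ) : D.Independent M i := by
  classical
  have hc := fun l => hD.act_rho l M.X (i + 2 * M.r) M.π
  -- the Frobenius endomorphisms
  choose f hf huniq using fun l => exists_frob (I := D.I) (F := D.F) (hc l)
    ((D.p : D.K l) ^ (- M.r))
  suffices h : IndepTrace D.K (fun l => invariants D.I (D.rho l M.X (i + 2 * M.r))
      (D.act l M.X (i + 2 * M.r) M.π)) f by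
    obtain ⟨P, hP⟩ := indep_of_indepTrace _ _ _ h
    exact ⟨P, fun l f' h' => by rw [huniq l f' h', hP l]⟩
  have hp : 2 ≤ D.p := hD.prime.two_le
  -- trivial degrees
  by_cases hj : i + 2 * M.r < 0 ∨ 2 * (D.dim M.X : ℤ) < i + 2 * M.r
  · refine ⟨fun _ => 0, fun l n => ?_⟩
    have := hD.vanish l M.X _ hj
    have h1 : f l ^ (n + 1) = 0 := by
      ext v
      exact Subsingleton.elim _ _
    rw [h1, map_zero, map_zero]
  push Not at hj
  -- the rational traces
  choose τ hτ using fun (m : ℕ) (g : D.I) =>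
    rational_trace' hD hX M.π (i + 2 * M.r) hj.1 hj.2 m g g.2
  choose t ht using fun (m : ℕ) =>
    rational_trace' hD hX 1 (i + 2 * M.r) hj.1 hj.2 m 1 D.I.one_mem
  have ht' : ∀ (m : ℕ) (l : D.Pr), LinearMap.trace (D.K l) (D.H l M.X (i + 2 * M.r))
      (D.rho l M.X (i + 2 * M.r) D.F ^ (m + 1)) = algebraMap ℚ (D.K l) (t m) := by
    intro m l
    have := ht m l
    rwa [map_one, one_mul, mul_one, map_pow] at this
  let τ' : ℕ → D.G → ℚ := fun m g => if h : g ∈ D.I then τ m ⟨g, h⟩ else 0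
  have hτ' : ∀ (l : D.Pr) (m : ℕ), ∀ g ∈ D.I,
      LinearMap.trace (D.K l) (D.H l M.X (i + 2 * M.r)) (D.act l M.X (i + 2 * M.r) M.π *
        D.rho l M.X (i + 2 * M.r) (D.F ^ (m + 1) * g)) = algebraMap ℚ (D.K l) (τ' m g) := by
    intro l m g hg
    simp only [τ', dif_pos hg]
    exact hτ m ⟨g, hg⟩ l
  have key : ∀ (l l' : D.Pr) (n : ℕ), ∃ u : ℚ,
      LinearMap.trace (D.K l) _ (f l ^ (n + 1)) = algebraMap ℚ (D.K l) u ∧
      LinearMap.trace (D.K l') _ (f l' ^ (n + 1)) = algebraMap ℚ (D.K l') u := by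
    intro l l' n
    obtain ⟨r, N, h1, h2, h3⟩ := hP l (i + 2 * M.r)
    obtain ⟨r', N', h1', h2', h3'⟩ := hP l' (i + 2 * M.r)
    obtain ⟨u, hu, hu'⟩ := two_primes hp h1 h1' h2 h3 h3' (hc l) (hc l')
      (by rw [← map_mul, M.idem]) (by rw [← map_mul, M.idem])
      (hτ' l) (hτ' l') (fun m => ht' m l) (fun m => ht' m l')
      (invariants D.I (D.rho l M.X (i + 2 * M.r)) (D.act l M.X (i + 2 * M.r) M.π))
      (fun v => Iff.rfl)
      (invariants D.I (D.rho l' M.X (i + 2 * M.r)) (D.act l' M.X (i + 2 * M.r) M.π))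
      (fun v => Iff.rfl) n _ rfl
      (frob_stable (hc l) (n + 1)) _ rfl (frob_stable (hc l') (n + 1))
    refine ⟨((D.p : ℚ) ^ (- M.r)) ^ (n + 1) * u, ?_, ?_⟩
    · rw [frob_pow (hc l) (hf l), map_smul, hu, smul_eq_mul, map_mul, map_pow, map_zpow₀,
        map_natCast]
    · rw [frob_pow (hc l') (hf l'), map_smul, hu', smul_eq_mul, map_mul, map_pow,
        map_zpow₀, map_natCast]
  by_cases hne : Nonempty D.Pr
  · obtain ⟨l₀⟩ := hne
    choose u hu using fun n => key l₀ l₀ n
    refine ⟨u, fun l n => ?_⟩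
    obtain ⟨u', h1, h2⟩ := key l₀ l n
    have h3 : algebraMap ℚ (D.K l₀) (u n) = algebraMap ℚ (D.K l₀) u' := by rw [← (hu n).1, h1]
    rw [h2, (algebraMap ℚ (D.K l₀)).injective h3]
  · exact ⟨fun _ => 0, fun l => (hne ⟨l⟩).elim⟩

/-- main theorem for the class of varieties -/
theorem independent_of_generated (hD : D.Facts) {C : VarClass D} (hC : C.Facts) (M : Motive D)
    (hM : C.Generated M.X) (i : ℤ) : D.Independent M i := by
  have key : ∀ X, C.Generated X → D.HasKuenneth X ∧ D.IsPure X := by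
    intro X hX
    induction hX with
    | basic h => exact ⟨hC.kuenneth _ h, hC.pure _ h⟩
    | prod _ _ h ih₁ ih₂ => exact ⟨hC.kuenneth_prod _ _ _ h ih₁.1 ih₂.1,
        hC.pure_prod _ _ _ h ih₁.2 ih₂.2⟩
  exact independent hD M (key _ hM).1 (key _ hM).2 i

theorem wellDefined (hD : D.Facts) (M : Motive D) (i : ℤ) (l : D.Pr) : D.WellDefined M i l :=
  exists_frob (hD.act_rho l M.X (i + 2 * M.r) M.π) _

end Data

end Pool.Agent.Q226.IL
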