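import Pool.Agent.Q187.IL.Newton
import Pool.Agent.Q226.IL.Wt
import Pool.Agent.Q226.IL.WD

/-!
# Local Euler factors of Chow motives over `ℚ`: definitions
-/

set_option autoImplicit false

open Polynomial

namespace Pool.Agent.Q226.IL

open Pool.Agent.Q187.IL (revPoly)

section rep

variable {G K V : Type} [Group G] [Field K] [AddCommGroup V] [Module K V]

/-- `c` is an endomorphism of the representation `ρ`. -/
def Commutes (ρ : Representation K G V) (c : Module.End K V) : Prop :=
  ∀ g, c * ρ g = ρ g * c

/-- The trace of `c ρ(σ)`. -/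
noncomputable def tr (ρ : Representation K G V) (c : Module.End K V) (σ : G) : K :=
  LinearMap.trace K V (c * ρ σ)

/-- The invariants of the subgroup `I` in the image of `c`. -/
def invariants (I : Subgroup G) (ρ : Representation K G V) (c : Module.End K V) :
    Submodule K V where
  carrier := {v | v ∈ LinearMap.range c ∧ ∀ g ∈ I, ρ g v = v}
  zero_mem' := ⟨Submodule.zero_mem _, fun _ _ => map_zero _⟩
  add_mem' h h' := ⟨Submodule.add_mem _ h.1 h'.1,
    fun g hg => by rw [map_add, h.2 g hg, h'.2 g hg]⟩
  smul_mem' c _ h := ⟨Submodule.smul_mem _ c h.1, fun g hg => by rw [map_smul, h.2 g hg]⟩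

/-- `f` is the endomorphism induced by `a ρ(F)` on the invariants of `I` in the image of `c`. -/
def IsFrobenius (I : Subgroup G) (ρ : Representation K G V) (c : Module.End K V) (F : G) (a : K)
    (f : Module.End K (invariants I ρ c)) : Prop :=
  ∀ v, (f v : V) = a • ρ F v

/-- `det (1 - T a ρ(F))`, on the invariants of `I` in the image of `c`, is the rational polynomial
`P`. -/
def HasFactor [FiniteDimensional K V] [CharZero K] (I : Subgroup G) (ρ : Representation K G V)
    (c : Module.End K V) (F : G) (a : K) (P : ℚ[X]) : Prop :=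
  ∀ f, IsFrobenius I ρ c F a f → revPoly f = P.map (algebraMap ℚ K)

/-- The endomorphism induced by `a ρ(F)` on the invariants of `I` in the image of `c` exists and is
unique. -/
def UniqueFrobenius (I : Subgroup G) (ρ : Representation K G V) (c : Module.End K V) (F : G)
    (a : K) : Prop := ∃! f, IsFrobenius I ρ c F a f

/-- The monodromy theorem and the weight-monodromy conjecture for `ρ`: there is a Weil-Deligne
representation `(r, N)`, the eigenvalues of `r(F)` are Weil numbers, and it is pure of weight `w`. -/
def IsPureRep [CharZero K] (p : ℕ) (I : Subgroup G) (F : G) (ρ : Representation K G V) (w : ℤ) :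
    Prop :=
  ∃ (r : Representation K G V) (N : Module.End K V),
    IsWeilDeligne p I F ρ r N ∧ Mixed p (r F) ∧ MonodromyWeight p w (r F) N

end rep

/-- The smooth projective varieties over `ℚ`, their correspondences, and their `ℓ`-adic cohomology with
the action of the Weil group at a prime number `p`. -/
structure Data where
  /-- the prime number `p` -/
  p : ℕ
  /-- the primes `ℓ ≠ p` -/
  Pr : Type
  /-- the fields `ℚ_ℓ` -/
  K : Pr → Type
  [field : ∀ l, Field (K l)]
  [char : ∀ l, CharZero (K l)]
  /-- the Weil group at `p` (the subgroup of a decomposition group generated by the inertia group and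
  a Frobenius element) -/
  G : Type
  [group : Group G]
  /-- the inertia group -/
  I : Subgroup G
  [normal : I.Normal]
  /-- a geometric Frobenius element -/
  F : G
  /-- the smooth projective varieties over `ℚ` -/
  Var : Type
  /-- the dimension -/
  dim : Var → ℕ
  /-- the ring of correspondences `CH^d(X × X)_ℚ`, `d = dim X` -/
  Cor : Var → Type
  [ring : ∀ X, Ring (Cor X)]
  /-- the cohomology `H^j(X, ℚ_ℓ)` of `X` over an algebraic closure -/
  H : Pr → Var → ℤ → Type
  [acg : ∀ l X j, AddCommGroup (H l X j)]
  [mod : ∀ l X j, Module (K l) (H l X j)]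
  [fin : ∀ l X j, FiniteDimensional (K l) (H l X j)]
  /-- the Galois action -/
  rho : ∀ l X j, Representation (K l) G (H l X j)
  /-- the action of correspondences on cohomology -/
  act : ∀ l X j, Cor X →+* Module.End (K l) (H l X j)

attribute [instance] Data.field Data.char Data.group Data.normal Data.ring Data.acg Data.mod Data.fin

/-- A Chow motive `(X, π, r)` over `ℚ` with rational coefficients. -/
structure Motive (D : Data) where
  /-- the variety -/
  X : D.Var
  /-- the idempotent correspondence -/
  π : D.Cor X
  /-- the twist -/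
  r : ℤ
  idem : π * π = π

namespace Data

variable (D : Data)

/-- `P^i_{p,ℓ}(M, T) = P`, where `P^i_{p,ℓ}(M, T) = det (1 - T F | V^i_ℓ(M)^I)`. Here
`V^i_ℓ(M) = π^* H^{i+2r}(X, ℚ_ℓ)(r)`; the inertia group acts trivially on `ℚ_ℓ(r)`, and the geometric
Frobenius as `p ^ (- r)`. -/
def EulerFactor (M : Motive D) (i : ℤ) (l : D.Pr) (P : ℚ[X]) : Prop :=
  HasFactor D.I (D.rho l M.X (i + 2 * M.r)) (D.act l M.X (i + 2 * M.r) M.π) D.F
    ((D.p : D.K l) ^ (- M.r)) P

/-- The assertion of the question for `M`, `i` and `p`: the polynomials `P^i_{p,ℓ}(M, T)` have rational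
coefficients and do not depend on `ℓ`. -/
def Independent (M : Motive D) (i : ℤ) : Prop :=
  ∃ P : ℚ[X], ∀ l : D.Pr, D.EulerFactor M i l P

/-- The geometric Frobenius on `V^i_ℓ(M)^I` exists and is unique. -/
def WellDefined (M : Motive D) (i : ℤ) (l : D.Pr) : Prop :=
  UniqueFrobenius D.I (D.rho l M.X (i + 2 * M.r)) (D.act l M.X (i + 2 * M.r) M.π) D.F
    ((D.p : D.K l) ^ (- M.r))

/-- The correspondence `c` acts as the identity on `H^j(X)` and as zero on the other cohomology groups,
for all `ℓ`. -/
def IsProjector (X : D.Var) (j : ℕ) (c : D.Cor X) : Prop :=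
  ∀ (l : D.Pr) (i : ℕ), D.act l X i c = if i = j then 1 else 0

/-- The Kuenneth projectors of `X` are algebraic. -/
def HasKuenneth (X : D.Var) : Prop := ∀ j : ℕ, ∃ c : D.Cor X, D.IsProjector X j c

/-- The monodromy theorem and the weight-monodromy conjecture for `H^j(X, ℚ_ℓ)`, for all `j` and all
`ℓ ≠ p`. -/
def IsPure (X : D.Var) : Prop :=
  ∀ (l : D.Pr) (j : ℤ), IsPureRep D.p D.I D.F (D.rho l X j) j

/-- The alternating sum `∑ (-1) ^ j Tr (c σ | H^j(X))`. -/
noncomputable def altTrace (X : D.Var) (c : D.Cor X) (σ : D.G) (l : D.Pr) : D.K l :=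
  ∑ j ∈ Finset.range (2 * D.dim X + 1), (-1) ^ j * tr (D.rho l X j) (D.act l X j c) σ

/-- Independence of `ℓ` for the alternating sum of traces (T. Saito): for a correspondence `c` on `X`
and an element `σ = F ^ (n + 1) g` of the Weil group of positive degree, `∑ (-1) ^ j Tr (c σ | H^j(X))`
is a rational number which does not depend on `ℓ`. -/
def HasRationalTraces (X : D.Var) : Prop :=
  ∀ (c : D.Cor X) (n : ℕ), ∀ g ∈ D.I, ∃ t : ℚ, ∀ l : D.Pr,
    D.altTrace X c (D.F ^ (n + 1) * g) l = algebraMap ℚ (D.K l) t

/-- Known facts for all varieties: correspondences commute with the Galois action; `H^j(X)` is zero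
except for `0 ≤ j ≤ 2 dim X`; T. Saito's theorem on traces. -/
structure Facts : Prop where
  prime : D.p.Prime
  act_rho : ∀ l X j c, Commutes (D.rho l X j) (D.act l X j c)
  vanish : ∀ l X (j : ℤ), j < 0 ∨ 2 * (D.dim X : ℤ) < j → Subsingleton (D.H l X j)
  saito : ∀ X, D.HasRationalTraces X

end Data

/-- A class of varieties: `Basic X` means that `X` is a smooth complete intersection in a projective
space, or a curve, or a surface, or an abelian variety; `Prod X Y Z` means `Z = X × Y`. -/
structure VarClass (D : Data) where
  /-- complete intersections, curves, surfaces, abelian varieties -/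
  Basic : D.Var → Prop
  /-- `Z = X × Y` -/
  Prod : D.Var → D.Var → D.Var → Prop

/-- The products of varieties which are basic. -/
inductive VarClass.Generated {D : Data} (C : VarClass D) : D.Var → Prop
  | basic {X : D.Var} (h : C.Basic X) : Generated C X
  | prod {X Y Z : D.Var} (hX : Generated C X) (hY : Generated C Y) (h : C.Prod X Y Z) :
      Generated C Z

/-- Known facts on these varieties.
* `kuenneth`, `kuenneth_prod`: Kuenneth projectors are algebraic for complete intersections, curves,
  surfaces (Murre), abelian varieties (Lieberman), and products.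
* `pure`: weight-monodromy: curves and abelian varieties (Grothendieck), surfaces (Rapoport, Zink, de
  Jong), complete intersections (Scholze). `pure_prod`: products of varieties with pure cohomology
  (Deligne, Weil II, 1.6.9, and the formula of Kuenneth). -/
structure VarClass.Facts {D : Data} (C : VarClass D) : Prop where
  kuenneth : ∀ X, C.Basic X → D.HasKuenneth X
  kuenneth_prod : ∀ X Y Z, C.Prod X Y Z → D.HasKuenneth X → D.HasKuenneth Y → D.HasKuenneth Z
  pure : ∀ X, C.Basic X → D.IsPure X
  pure_prod : ∀ X Y Z, C.Prod X Y Z → D.IsPure X → D.IsPure Y → D.IsPure Z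

end Pool.Agent.Q226.IL
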