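import Pool.Agent.Q226.IL.Main

/-!
# Euler factors of dominated varieties: integrality and transport
-/

set_option autoImplicit false
set_option linter.unusedSectionVars false

open Polynomial

namespace Pool.Agent.Q226.IL

open Pool.Agent.Q187.IL (revPoly indep_of_indepTrace IndepTrace)

section integral

variable {K V : Type} [Field K] [AddCommGroup V] [Module K V] [FiniteDimensional K V]

/-- polynomials in endomorphisms which are intertwined by a linear map -/
lemma aeval_inter' {A B : Type} [AddCommGroup A] [Module K A] [AddCommGroup B] [Module K B]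
    {F : Module.End K A} {G : Module.End K B} (e : A →ₗ[K] B)
    (h : ∀ x, e (F x) = G (e x)) (P : K[X]) (x : A) :
    aeval G P (e x) = e (aeval F P x) := by
  induction P using Polynomial.induction_on' with
  | add p q hp hq => simp [hp, hq]
  | monomial n a =>
    have key : ∀ n : ℕ, ∀ x, (G ^ n) (e x) = e ((F ^ n) x) := by
      intro n
      induction n with
      | zero => intro x; simp
      | succ n ih => intro x; rw [pow_succ, pow_succ]; simp [ih, ← h]
    simp [aeval_monomial, key]

/-- The eigenvalues of `f` are algebraic integers: `f` is a zero of a monic polynomial with integral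
coefficients. -/
def IsIntegralEnd (f : Module.End K V) : Prop :=
  ∃ g : ℤ[X], g.Monic ∧ aeval f (g.map (Int.castRingHom K)) = 0

/-- a product of linear factors with integral roots has integral coefficients -/
lemma integral_prod {L : Type} [Field L] (s : Multiset L) (h : ∀ a ∈ s, IsIntegral ℤ a) (n : ℕ) :
    IsIntegral ℤ (((s.map fun a => X - C a).prod).coeff n) := by
  induction s using Multiset.induction_on generalizing n with
  | empty =>
    rw [Multiset.map_zero, Multiset.prod_zero, coeff_one]
    split_ifs
    · exact isIntegral_one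
    · exact isIntegral_zero
  | cons a s ih =>
    rw [Multiset.map_cons, Multiset.prod_cons, sub_mul, coeff_sub, coeff_C_mul]
    have h1 := ih (fun b hb => h b (Multiset.mem_cons_of_mem hb))
    refine IsIntegral.sub ?_ ((h a (Multiset.mem_cons_self a s)).mul (h1 n))
    cases n with
    | zero => rw [coeff_X_mul_zero]; exact isIntegral_zero
    | succ n => rw [coeff_X_mul]; exact h1 n

/-- the coefficients of the characteristic polynomial of an endomorphism which is a zero of a monic
polynomial with integral coefficients are integral -/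
lemma integral_charpoly {f : Module.End K V} (hf : IsIntegralEnd f) (n : ℕ) :
    IsIntegral ℤ (f.charpoly.coeff n) := by
  classical
  obtain ⟨g, hg, h⟩ := hf
  let L := AlgebraicClosure K
  let b := Module.finBasis K V
  let M := LinearMap.toMatrix b b f
  let M' : Matrix (Fin (Module.finrank K V)) (Fin (Module.finrank K V)) L :=
    M.map (algebraMap K L)
  have h1 : aeval M (g.map (Int.castRingHom K)) = 0 := by
    have e : M = LinearMap.toMatrixAlgEquiv b f := rfl
    rw [e, aeval_algHom_apply (LinearMap.toMatrixAlgEquiv b) f, h, map_zero]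
  have h2 : aeval M' (g.map (Int.castRingHom L)) = 0 := by
    have e : M' = (Algebra.ofId K L).mapMatrix M := rfl
    have e2 : g.map (Int.castRingHom L) = (g.map (Int.castRingHom K)).map (algebraMap K L) := by
      rw [Polynomial.map_map]
      congr 1
    rw [e2, aeval_map_algebraMap, e, aeval_algHom_apply, h1, map_zero]
  have h3 : ∀ a ∈ M'.charpoly.roots, IsIntegral ℤ a := by
    intro a ha
    have ha' : M'.charpoly.IsRoot a := (mem_roots'.1 ha).2
    have h4 : a ∈ spectrum L M' := Matrix.mem_spectrum_of_isRoot_charpoly ha'
    have h5 : eval a (g.map (Int.castRingHom L)) ∈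
        spectrum L (aeval M' (g.map (Int.castRingHom L))) :=
      spectrum.subset_polynomial_aeval M' _ ⟨a, h4, rfl⟩
    rw [h2] at h5
    rcases isEmpty_or_nonempty (Fin (Module.finrank K V)) with h6 | h6
    · exfalso
      have : Subsingleton (Matrix (Fin (Module.finrank K V)) (Fin (Module.finrank K V)) L) :=
        inferInstance
      rw [spectrum.of_subsingleton] at h5
      exact h5
    · rw [spectrum.zero_eq] at h5
      rw [Set.mem_singleton_iff, eval_map] at h5
      exact ⟨g, hg, h5⟩
  have h4 : M'.charpoly = f.charpoly.map (algebraMap K L) := by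
    rw [← LinearMap.charpoly_toMatrix f b, ← Matrix.charpoly_map]
  have h5 : M'.charpoly = (M'.charpoly.roots.map fun a => X - C a).prod := by
    exact (IsAlgClosed.splits M'.charpoly).eq_prod_roots_of_monic (Matrix.charpoly_monic M')
  have h6 := integral_prod M'.charpoly.roots h3 n
  rw [← h5, h4, coeff_map] at h6
  exact (isIntegral_algebraMap_iff (algebraMap K L).injective).1 h6

lemma integral_revPoly {f : Module.End K V} (hf : IsIntegralEnd f) (n : ℕ) :
    IsIntegral ℤ ((revPoly f).coeff n) := by
  rw [revPoly, coeff_reverse]
  exact integral_charpoly hf _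

/-- a rational polynomial which is `det (1 - T f)` has integral coefficients -/
lemma exists_int [CharZero K] {f : Module.End K V} (hf : IsIntegralEnd f) {P : ℚ[X]}
    (h : revPoly f = P.map (algebraMap ℚ K)) : ∃ Q : ℤ[X], P = Q.map (Int.castRingHom ℚ) := by
  have h1 : ∀ n, ∃ a : ℤ, (Int.castRingHom ℚ) a = P.coeff n := by
    intro n
    have h2 := integral_revPoly hf n
    rw [h, coeff_map] at h2
    have h3 : IsIntegral ℤ (P.coeff n) :=
      (isIntegral_algebraMap_iff (algebraMap ℚ K).injective).1 h2
    obtain ⟨a, ha⟩ := IsIntegrallyClosed.isIntegral_iff.1 h3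
    exact ⟨a, ha⟩
  have h2 : P ∈ Polynomial.lifts (Int.castRingHom ℚ) := by
    rw [Polynomial.lifts_iff_coeff_lifts]
    intro n
    exact h1 n
  obtain ⟨Q, hQ⟩ := (Polynomial.mem_lifts _).1 h2
  exact ⟨Q, hQ.symm⟩

end integral

section transport

variable {G K V V' : Type} [Group G] [Field K] [AddCommGroup V] [Module K V]
  [AddCommGroup V'] [Module K V']

/-- The representation `ρ'` is isomorphic to the image of the endomorphism `c` of the representation
`ρ`. -/
def IsImage (ρ' : Representation K G V') (ρ : Representation K G V) (c : Module.End K V) : Prop :=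
  ∃ e : V' →ₗ[K] V, Function.Injective e ∧ (∀ g v, e (ρ' g v) = ρ g (e v)) ∧
    LinearMap.range e = LinearMap.range c

variable [FiniteDimensional K V] [FiniteDimensional K V'] [CharZero K] {I : Subgroup G} [I.Normal]
  {F : G} {ρ' : Representation K G V'} {ρ : Representation K G V} {c : Module.End K V}

lemma transport (h : IsImage ρ' ρ c) {a : K} {P : ℚ[X]}
    (hP : HasFactor I ρ c F a P) : HasFactor I ρ' 1 F a P := by
  obtain ⟨e, hinj, he, hr⟩ := h
  have h1 : ∀ v : V', v ∈ invariants I ρ' 1 ↔ e v ∈ invariants I ρ c := by
    intro v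
    constructor
    · rintro ⟨-, h2⟩
      exact ⟨by rw [← hr]; exact ⟨v, rfl⟩, fun g hg => by rw [← he, h2 g hg]⟩
    · rintro ⟨-, h2⟩
      exact ⟨⟨v, rfl⟩, fun g hg => hinj (by rw [he, h2 g hg])⟩
  have h2 : (invariants I ρ' 1).map e = invariants I ρ c := by
    ext v
    rw [Submodule.mem_map]
    constructor
    · rintro ⟨u, hu, rfl⟩
      exact (h1 u).1 hu
    · intro hv
      have h3 : v ∈ LinearMap.range e := by rw [hr]; exact hv.1
      obtain ⟨u, rfl⟩ := h3
      exact ⟨u, (h1 u).2 hv, rfl⟩
  let E : invariants I ρ' 1 ≃ₗ[K] invariants I ρ c :=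
    (Submodule.equivMapOfInjective e hinj _).trans (LinearEquiv.ofEq _ _ h2)
  have hE : ∀ v : invariants I ρ' 1, ((E v : invariants I ρ c) : V) = e v := fun v => rfl
  intro f hf
  have h3 : revPoly f = revPoly (E.conj f) := by
    unfold Pool.Agent.Q187.IL.revPoly
    rw [LinearEquiv.charpoly_conj]
  rw [h3]
  refine hP _ fun v => ?_
  obtain ⟨u, rfl⟩ := E.surjective v
  rw [LinearEquiv.conj_apply_apply, LinearEquiv.symm_apply_apply, hE, hf, map_smul, he, hE]

end transport

end Pool.Agent.Q226.IL
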