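import Pool.Agent.Q226.IL.Dom

/-!
# Euler factors of dominated varieties: definitions
-/

set_option autoImplicit false

open Polynomial

namespace Pool.Agent.Q226.IL

namespace Data

variable (D : Data)

/-- `P_{p,ℓ}(T) = P(T)`, where `P_{p,ℓ}(T) = det (1 - F T | H^i(Y, ℚ_ℓ)^I)`, for a polynomial `P` with
integral coefficients. -/
def LocalFactor (Y : D.Var) (i : ℤ) (l : D.Pr) (P : ℤ[X]) : Prop :=
  HasFactor D.I (D.rho l Y i) 1 D.F 1 (P.map (Int.castRingHom ℚ))

/-- The assertion of the question for `Y`, `i` and `p`: the polynomials `P_{p,ℓ}(T)` have integral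
coefficients and do not depend on `ℓ ≠ p`. -/
def IntegralIndependent (Y : D.Var) (i : ℤ) : Prop :=
  ∃ P : ℤ[X], ∀ l : D.Pr, D.LocalFactor Y i l P

/-- The eigenvalues of the geometric Frobenius `F` on the cohomology of `Y` are algebraic integers. -/
def IntegralEigenvalues (Y : D.Var) : Prop :=
  ∀ (l : D.Pr) (i : ℤ), IsIntegralEnd (D.rho l Y i D.F)

/-- There is an idempotent correspondence `π` on `X` such that, for all `ℓ` and `i`, the representation
`H^i(Y)` is isomorphic to the image of `π` on `H^i(X)`. -/
def IsSummand (X Y : D.Var) : Prop :=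
  ∃ π : D.Cor X, π * π = π ∧ ∀ l i, IsImage (D.rho l Y i) (D.rho l X i) (D.act l X i π)

/-- Known facts on the relation `Dom X Y`: there is a surjective morphism `X → Y`.
* `summand`: the motive of `Y` is then a direct summand of the motive of `X`: if `f : X → Y` is
  surjective and the class `η` has degree `m ≠ 0` on the fibres of `f`, then
  `f_* (η · f^*(x)) = m x`.
* `integral`: the eigenvalues of Frobenius on the cohomology of a variety are algebraic integers
  (Grothendieck, Deligne: SGA 7, XXI). -/
structure DomFacts (Dom : D.Var → D.Var → Prop) : Prop where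
  summand : ∀ X Y, Dom X Y → D.IsSummand X Y
  integral : ∀ Y, D.IntegralEigenvalues Y

end Data

/-- `Y` is dominated by a product of basic varieties. -/
def VarClass.Dominated {D : Data} (C : VarClass D) (Dom : D.Var → D.Var → Prop) (Y : D.Var) : Prop :=
  ∃ X, C.Generated X ∧ Dom X Y

end Pool.Agent.Q226.IL
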