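import Pool.Agent.Q226.IL.DomDefs

/-!
# Euler factors of dominated varieties: proofs
-/

set_option autoImplicit false

open Polynomial

namespace Pool.Agent.Q226.IL

namespace Data

variable {D : Data}

lemma factor_cast {X : D.Var} {π : D.Cor X} {l : D.Pr} {a : D.K l} {P : ℚ[X]} {j i : ℤ} (e : j = i)
    (h : HasFactor D.I (D.rho l X j) (D.act l X j π) D.F a P) :
    HasFactor D.I (D.rho l X i) (D.act l X i π) D.F a P := by
  subst e
  exact h

/-- algebraic Kuenneth projectors and weight-monodromy for `X`: the assertion for all summands `Y` -/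
theorem summand_independent (hD : D.Facts) {X Y : D.Var} (hX : D.HasKuenneth X) (hP : D.IsPure X)
    (hXY : D.IsSummand X Y) (hI : D.IntegralEigenvalues Y) (i : ℤ) :
    D.IntegralIndependent Y i := by
  obtain ⟨π, hπ, himg⟩ := hXY
  obtain ⟨P, h⟩ := independent hD ⟨X, π, 0, hπ⟩ hX hP i
  have h1 : ∀ l, HasFactor D.I (D.rho l Y i) 1 D.F 1 P := by
    intro l
    have h2 := h l
    have h3 : HasFactor D.I (D.rho l X i) (D.act l X i π) D.F ((D.p : D.K l) ^ (-0 : ℤ)) P :=
      factor_cast (by ring) h2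
    rw [neg_zero, zpow_zero] at h3
    exact transport (himg l i) h3
  by_cases hne : Nonempty D.Pr
  · obtain ⟨l₀⟩ := hne
    have hc : Commutes (D.rho l₀ Y i) 1 := fun g => by rw [one_mul, mul_one]
    obtain ⟨f, hf, -⟩ := exists_frob (I := D.I) (F := D.F) hc (1 : D.K l₀)
    have h4 := h1 l₀ f hf
    have h5 : IsIntegralEnd f := by
      obtain ⟨g, hg, h6⟩ := hI l₀ i
      refine ⟨g, hg, ?_⟩
      ext v
      have h7 := aeval_inter' (F := f) (G := D.rho l₀ Y i D.F) (invariants D.I (D.rho l₀ Y i) 1).subtype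
        (fun x => by rw [Submodule.subtype_apply, Submodule.subtype_apply, hf, one_smul])
        (g.map (Int.castRingHom (D.K l₀))) v
      rw [h6, LinearMap.zero_apply] at h7
      simpa using h7.symm
    obtain ⟨Q, hQ⟩ := exists_int h5 h4
    exact ⟨Q, fun l => by rw [LocalFactor, ← hQ]; exact h1 l⟩
  · exact ⟨0, fun l => (hne ⟨l⟩).elim⟩

theorem dominated_independent (hD : D.Facts) {C : VarClass D} (hC : C.Facts)
    {Dom : D.Var → D.Var → Prop} (hdom : D.DomFacts Dom) {Y : D.Var} (hY : C.Dominated Dom Y)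
    (i : ℤ) : D.IntegralIndependent Y i := by
  obtain ⟨X, hX, h⟩ := hY
  have key : ∀ X, C.Generated X → D.HasKuenneth X ∧ D.IsPure X := by
    intro X hX
    induction hX with
    | basic h => exact ⟨hC.kuenneth _ h, hC.pure _ h⟩
    | prod _ _ h ih₁ ih₂ => exact ⟨hC.kuenneth_prod _ _ _ h ih₁.1 ih₂.1,
        hC.pure_prod _ _ _ h ih₁.2 ih₂.2⟩
  exact summand_independent hD (key X hX).1 (key X hX).2 (hdom.summand X Y h) (hdom.integral Y) i

end Data

end Pool.Agent.Q226.IL
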